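import Pool.Agent.Lib.MP_27bb56_h90.Defs

/-!
Definitions for the hand-in EnvelopeBound of the problem MP_27bb56_co.
-/

namespace Pool.Agent.MP27bb56p

open Pool.Agent.MP27bb56

/-- every element `l` of `L` is the line `y = σ l * x + τ l` -/
def Graphs (L : Finset (Set (ℝ × ℝ))) (σ τ : Set (ℝ × ℝ) → ℝ) : Prop :=
  ∀ l ∈ L, l = {p : ℝ × ℝ | p.2 = σ l * p.1 + τ l}

open Classical in
/-- the lines of `L` of smaller slope than `l` -/
noncomputable def lft (σ : Set (ℝ × ℝ) → ℝ) (L : Finset (Set (ℝ × ℝ))) (l : Set (ℝ × ℝ)) :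
    Finset (Set (ℝ × ℝ)) :=
  L.filter (fun m => σ m < σ l)

open Classical in
/-- the lines of `L` of larger slope than `l` -/
noncomputable def rgt (σ : Set (ℝ × ℝ) → ℝ) (L : Finset (Set (ℝ × ℝ))) (l : Set (ℝ × ℝ)) :
    Finset (Set (ℝ × ℝ)) :=
  L.filter (fun m => σ l < σ m)

open Classical in
/-- the lines of `S` with an edge on the lower envelope of `S`: over some `x = u` all other lines
of `S` are strictly above -/
noncomputable def low (σ τ : Set (ℝ × ℝ) → ℝ) (S : Finset (Set (ℝ × ℝ))) :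
    Finset (Set (ℝ × ℝ)) :=
  S.filter (fun l => ∃ u : ℝ, ∀ m ∈ S, m ≠ l → σ l * u + τ l < σ m * u + τ m)

open Classical in
/-- the lines of `S` with an edge on the upper envelope of `S`: over some `x = u` all other lines
of `S` are strictly below -/
noncomputable def upp (σ τ : Set (ℝ × ℝ) → ℝ) (S : Finset (Set (ℝ × ℝ))) :
    Finset (Set (ℝ × ℝ)) :=
  S.filter (fun l => ∃ u : ℝ, ∀ m ∈ S, m ≠ l → σ m * u + τ m < σ l * u + τ l)

open Classical in
/-- the triangles of area `A` whose side of middle slope passes above the opposite vertex -/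
noncomputable def upperTriples (L : Finset (Set (ℝ × ℝ))) (A : ℝ)
    (σ τ : Set (ℝ × ℝ) → ℝ) : Finset (Finset (Set (ℝ × ℝ))) :=
  (maxTriples L A).filter (fun T => ∃ l₁ l₂ l₃, T = {l₁, l₂, l₃} ∧ σ l₁ < σ l₂ ∧ σ l₂ < σ l₃ ∧
    τ l₁ * (σ l₃ - σ l₂) + τ l₃ * (σ l₂ - σ l₁) < τ l₂ * (σ l₃ - σ l₁))

open Classical in
/-- the triangles of area `A` whose side of middle slope passes below the opposite vertex -/
noncomputable def lowerTriples (L : Finset (Set (ℝ × ℝ))) (A : ℝ)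
    (σ τ : Set (ℝ × ℝ) → ℝ) : Finset (Finset (Set (ℝ × ℝ))) :=
  (maxTriples L A).filter (fun T => ∃ l₁ l₂ l₃, T = {l₁, l₂, l₃} ∧ σ l₁ < σ l₂ ∧ σ l₂ < σ l₃ ∧
    τ l₂ * (σ l₃ - σ l₁) < τ l₁ * (σ l₃ - σ l₂) + τ l₃ * (σ l₂ - σ l₁))

end Pool.Agent.MP27bb56p
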