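import Pool.Agent.Lib.MP_27bb56_h26.Pencils
import Pool.Agent.Lib.MP_27bb56_h26.EnvDefs

/-!
Triangles of maximum area in arrangements covered by few convex chains of lines.
-/

namespace Pool.Agent.MP27bb56p

open Pool.Agent.MP27bb56

/-- every line of `L` is somewhere on the upper envelope of its class: for some `u` no line `m`
of the class of `l` is above `l` over the point `x = u` -/
def UpperChains (L : Finset (Set (ℝ × ℝ))) (σ τ : Set (ℝ × ℝ) → ℝ) {k : ℕ}
    (χ : Set (ℝ × ℝ) → Fin k) : Prop :=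
  ∀ l ∈ L, ∃ u : ℝ, ∀ m ∈ L, χ m = χ l → σ m * u + τ m ≤ σ l * u + τ l

lemma graph_line {σ τ : Set (ℝ × ℝ) → ℝ} {l : Set (ℝ × ℝ)}
    (h : l = {p : ℝ × ℝ | p.2 = σ l * p.1 + τ l}) : l = line (σ l) (-1) (-(τ l)) := by
  have : ({p : ℝ × ℝ | p.2 = σ l * p.1 + τ l} : Set (ℝ × ℝ)) = line (σ l) (-1) (-(τ l)) := by
    ext p
    show p.2 = σ l * p.1 + τ l ↔ σ l * p.1 + (-1) * p.2 = -(τ l)
    constructor
    · intro g
      rw [g]
      ring
    · intro g
      linarith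
  exact h.trans this

lemma tri_perm {a b c l₁ l₂ l₃ : Set (ℝ × ℝ)} {A : ℝ} (h : TriangleArea a b c A)
    (h1 : l₁ = a ∨ l₁ = b ∨ l₁ = c) (h2 : l₂ = a ∨ l₂ = b ∨ l₂ = c)
    (h3 : l₃ = a ∨ l₃ = b ∨ l₃ = c) (n12 : l₁ ≠ l₂) (n13 : l₁ ≠ l₃) (n23 : l₂ ≠ l₃) :
    TriangleArea l₁ l₂ l₃ A := by
  rcases h1 with rfl | rfl | rfl <;> rcases h2 with rfl | rfl | rfl <;>
    rcases h3 with rfl | rfl | rfl <;>
    first
      | exact absurd rfl n12
      | exact absurd rfl n13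
      | exact absurd rfl n23
      | exact h
      | exact h.swap
      | exact h.rot
      | exact h.rot.rot
      | exact h.rot.swap
      | exact h.rot.rot.swap

lemma graph_area {L : Finset (Set (ℝ × ℝ))} {A : ℝ} {σ τ : Set (ℝ × ℝ) → ℝ}
    (hG : Graphs L σ τ) {x y z : Set (ℝ × ℝ)} (hx : x ∈ L) (hy : y ∈ L) (hz : z ∈ L)
    (ht : TriangleArea x y z A) :
    τ x * (σ z - σ y) + τ z * (σ y - σ x) - τ y * (σ z - σ x) ≠ 0 ∧
      A * (2 * |(σ y - σ x) * (σ z - σ x) * (σ z - σ y)|)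
        = (τ x * (σ z - σ y) + τ z * (σ y - σ x) - τ y * (σ z - σ x)) ^ 2 := by
  have ex := graph_line (hG x hx)
  have ey := graph_line (hG y hy)
  have ez := graph_line (hG z hz)
  have ht' : TriangleArea (ln (σ x) (-1) (-(τ x))) (ln (σ y) (-1) (-(τ y)))
      (ln (σ z) (-1) (-(τ z))) A := by
    have : TriangleArea (line (σ x) (-1) (-(τ x))) (line (σ y) (-1) (-(τ y)))
        (line (σ z) (-1) (-(τ z))) A := by rwa [← ex, ← ey, ← ez]
    exact this
  obtain ⟨-, -, -, hD, hArea⟩ := area_of (Or.inr (by norm_num)) (Or.inr (by norm_num)) ht'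
  have e1 : Del (σ x) (-1) (-(τ x)) (σ y) (-1) (-(τ y)) (σ z) (-1) (-(τ z))
      = -(τ x * (σ z - σ y) + τ z * (σ y - σ x) - τ y * (σ z - σ x)) := by
    unfold Del
    ring
  have e2 : D (σ x) (-1) (σ y) (-1) * D (σ x) (-1) (σ z) (-1) * D (σ y) (-1) (σ z) (-1)
      = (σ y - σ x) * (σ z - σ x) * (σ z - σ y) := by
    unfold D
    ring
  rw [e1, e2, neg_sq] at hArea
  rw [e1] at hD
  exact ⟨fun h => hD (by rw [h, neg_zero]), hArea⟩

lemma graph_le {L : Finset (Set (ℝ × ℝ))} {A : ℝ} {σ τ : Set (ℝ × ℝ) → ℝ}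
    (hG : Graphs L σ τ) (hA : IsMaxArea L A) (hA0 : 0 ≤ A) {x y z : Set (ℝ × ℝ)} (hx : x ∈ L)
    (hy : y ∈ L) (hz : z ∈ L) (h1 : σ x ≠ σ y) (h2 : σ x ≠ σ z) (h3 : σ y ≠ σ z) :
    (τ x * (σ z - σ y) + τ z * (σ y - σ x) - τ y * (σ z - σ x)) ^ 2
      ≤ A * (2 * |(σ y - σ x) * (σ z - σ x) * (σ z - σ y)|) := by
  have ex := graph_line (hG x hx)
  have ey := graph_line (hG y hy)
  have ez := graph_line (hG z hz)
  rw [ex] at hx
  rw [ey] at hy
  rw [ez] at hz
  have t := del_le hA hx hy hz hA0 (by unfold D; intro h; apply h1; linarith)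
    (by unfold D; intro h; apply h2; linarith) (by unfold D; intro h; apply h3; linarith)
  have e1 : Del (σ x) (-1) (-(τ x)) (σ y) (-1) (-(τ y)) (σ z) (-1) (-(τ z))
      = -(τ x * (σ z - σ y) + τ z * (σ y - σ x) - τ y * (σ z - σ x)) := by
    unfold Del
    ring
  have e2 : D (σ x) (-1) (σ y) (-1) * D (σ x) (-1) (σ z) (-1) * D (σ y) (-1) (σ z) (-1)
      = (σ y - σ x) * (σ z - σ x) * (σ z - σ y) := by
    unfold D
    ring
  rw [e1, e2, neg_sq] at t
  exact t

lemma sq_aux {a b : ℝ} (h : b ≤ a) (ha : a < 0) : a ^ 2 ≤ b ^ 2 := by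
  nlinarith

/-- the inequality for a chain: `x` passes above the common point of `x₁` and `x₄` and the vertex
of `y` and `z` is above `x` -/
lemma chain {L : Finset (Set (ℝ × ℝ))} {A : ℝ} {σ τ : Set (ℝ × ℝ) → ℝ} (hG : Graphs L σ τ)
    (hA : IsMaxArea L A) {x y z x₁ x₄ : Set (ℝ × ℝ)} (hx : x ∈ L) (hy : y ∈ L) (hz : z ∈ L)
    (h1 : x₁ ∈ L) (h4 : x₄ ∈ L) (ht : TriangleArea x y z A) (s1 : σ x₁ < σ x)
    (s4 : σ x < σ x₄) (hR : σ y < σ z) (side : σ x₄ < σ y ∨ σ z < σ x₁)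
    (hcup : τ x₁ * (σ x₄ - σ x) + τ x₄ * (σ x - σ x₁) ≤ τ x * (σ x₄ - σ x₁))
    (hU : τ x * (σ z - σ y) + τ z * (σ y - σ x) < τ y * (σ z - σ x)) : False := by
  have hA0 := area_nonneg ht
  obtain ⟨hne, hArea⟩ := graph_area hG hx hy hz ht
  have hxy : σ x ≠ σ y := by
    rcases side with g | g
    · exact (s4.trans g).ne
    · exact ((hR.trans g).trans s1).ne'
  have hxz : σ x ≠ σ z := by
    rcases side with g | g
    · exact ((s4.trans g).trans hR).ne
    · exact (g.trans s1).ne'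
  have h1y : σ x₁ ≠ σ y := by
    rcases side with g | g
    · exact ((s1.trans s4).trans g).ne
    · exact (hR.trans g).ne'
  have h1z : σ x₁ ≠ σ z := by
    rcases side with g | g
    · exact (((s1.trans s4).trans g).trans hR).ne
    · exact g.ne'
  have h4y : σ x₄ ≠ σ y := by
    rcases side with g | g
    · exact g.ne
    · exact ((hR.trans g).trans (s1.trans s4)).ne'
  have h4z : σ x₄ ≠ σ z := by
    rcases side with g | g
    · exact (g.trans hR).ne
    · exact (g.trans (s1.trans s4)).ne'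
  have b1 := graph_le hG hA hA0 h1 hy hz h1y h1z hR.ne
  have b4 := graph_le hG hA hA0 h4 hy hz h4y h4z hR.ne
  have hApos : 0 < A := by
    rcases hA0.lt_or_eq with u | u
    · exact u
    · exfalso
      rw [← u, zero_mul] at hArea
      exact hne (pow_eq_zero_iff (two_ne_zero)|>.mp hArea.symm)
  have hR' : 0 < σ z - σ y := sub_pos.mpr hR
  have prod : ∀ w : ℝ, (w < σ y ∨ σ z < w) →
      |(σ y - w) * (σ z - w) * (σ z - σ y)| = (σ y - w) * (σ z - w) * (σ z - σ y) := by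
    intro w hw
    apply abs_of_nonneg
    apply mul_nonneg _ hR'.le
    rcases hw with g | g
    · exact mul_nonneg (by linarith) (by linarith)
    · exact mul_nonneg_of_nonpos_of_nonpos (by linarith) (by linarith)
  rw [prod (σ x) (by rcases side with g | g; exacts [Or.inl (s4.trans g), Or.inr (g.trans s1)])]
    at hArea
  rw [prod (σ x₁) (by
    rcases side with g | g; exacts [Or.inl ((s1.trans s4).trans g), Or.inr g])] at b1
  rw [prod (σ x₄) (by
    rcases side with g | g; exacts [Or.inl g, Or.inr (g.trans (s1.trans s4))])] at b4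
  set U := τ x * (σ z - σ y) + τ z * (σ y - σ x) - τ y * (σ z - σ x) with hUdef
  set U₁ := τ x₁ * (σ z - σ y) + τ z * (σ y - σ x₁) - τ y * (σ z - σ x₁) with hU1def
  set U₄ := τ x₄ * (σ z - σ y) + τ z * (σ y - σ x₄) - τ y * (σ z - σ x₄) with hU4def
  have hUneg : U < 0 := by
    rw [hUdef]
    linarith
  have hlam : 0 < σ x₄ - σ x := sub_pos.mpr s4
  have hmu : 0 < σ x - σ x₁ := sub_pos.mpr s1
  have hcomb : (σ x₄ - σ x) * U₁ + (σ x - σ x₁) * U₄ ≤ (σ x₄ - σ x₁) * U := by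
    have e : (σ x₄ - σ x₁) * U - ((σ x₄ - σ x) * U₁ + (σ x - σ x₁) * U₄)
        = (σ z - σ y) * (τ x * (σ x₄ - σ x₁)
          - (τ x₁ * (σ x₄ - σ x) + τ x₄ * (σ x - σ x₁))) := by
      rw [hUdef, hU1def, hU4def]
      ring
    have : 0 ≤ (σ z - σ y) * (τ x * (σ x₄ - σ x₁)
          - (τ x₁ * (σ x₄ - σ x) + τ x₄ * (σ x - σ x₁))) :=
      mul_nonneg hR'.le (by linarith)
    linarith
  have hsq : ((σ x₄ - σ x₁) * U) ^ 2 ≤ ((σ x₄ - σ x) * U₁ + (σ x - σ x₁) * U₄) ^ 2 := by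
    have n1 : (σ x₄ - σ x₁) * U < 0 := mul_neg_of_pos_of_neg (by linarith) hUneg
    exact sq_aux hcomb n1
  set K := A * (2 * (σ z - σ y)) with hK
  have hKpos : 0 < K := by positivity
  have c1 : ((σ x₄ - σ x) * U₁) ^ 2 ≤ K * (((σ x₄ - σ x) * (σ y - σ x₁)) *
      ((σ x₄ - σ x) * (σ z - σ x₁))) := by
    have := mul_le_mul_of_nonneg_left b1 (sq_nonneg (σ x₄ - σ x))
    calc ((σ x₄ - σ x) * U₁) ^ 2 = (σ x₄ - σ x) ^ 2 * U₁ ^ 2 := by ring
      _ ≤ _ := this
      _ = _ := by rw [hK]; ring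
  have c4 : ((σ x - σ x₁) * U₄) ^ 2 ≤ K * (((σ x - σ x₁) * (σ y - σ x₄)) *
      ((σ x - σ x₁) * (σ z - σ x₄))) := by
    have := mul_le_mul_of_nonneg_left b4 (sq_nonneg (σ x - σ x₁))
    calc ((σ x - σ x₁) * U₄) ^ 2 = (σ x - σ x₁) ^ 2 * U₄ ^ 2 := by ring
      _ ≤ _ := this
      _ = _ := by rw [hK]; ring
  have fin : ((σ x₄ - σ x) * U₁ + (σ x - σ x₁) * U₄) ^ 2
      < K * (((σ x₄ - σ x₁) * (σ y - σ x)) * ((σ x₄ - σ x₁) * (σ z - σ x))) := by
    have s5 : σ x₁ < σ x₄ := s1.trans s4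
    have cross : (σ y - σ x₁) * (σ z - σ x₄) - (σ y - σ x₄) * (σ z - σ x₁)
        = (σ x₄ - σ x₁) * (σ z - σ y) := by ring
    have crossne : (σ x₄ - σ x₁) * (σ z - σ y) ≠ 0 :=
      (mul_pos (by linarith) hR').ne'
    rcases side with g | g
    · have := cs hKpos (mul_pos hlam (by linarith : 0 < σ y - σ x₁))
        (mul_pos hmu (by linarith : 0 < σ y - σ x₄))
        (mul_pos hlam (by linarith : 0 < σ z - σ x₁))
        (mul_pos hmu (by linarith : 0 < σ z - σ x₄)) c1 c4 (by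
          intro hh
          apply crossne
          have h5 : (σ x₄ - σ x) * (σ x - σ x₁) * ((σ y - σ x₁) * (σ z - σ x₄)
            - (σ y - σ x₄) * (σ z - σ x₁)) = 0 := by linear_combination hh
          rw [cross] at h5
          rcases mul_eq_zero.mp h5 with h6 | h6
          · exact absurd h6 (mul_pos hlam hmu).ne'
          · exact h6)
      refine this.trans_eq ?_
      ring
    · have c1' : ((σ x₄ - σ x) * U₁) ^ 2 ≤ K * (((σ x₄ - σ x) * (σ x₁ - σ y)) *
          ((σ x₄ - σ x) * (σ x₁ - σ z))) := c1.trans_eq (by ring)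
      have c4' : ((σ x - σ x₁) * U₄) ^ 2 ≤ K * (((σ x - σ x₁) * (σ x₄ - σ y)) *
          ((σ x - σ x₁) * (σ x₄ - σ z))) := c4.trans_eq (by ring)
      have := cs hKpos (mul_pos hlam (by linarith : 0 < σ x₁ - σ y))
        (mul_pos hmu (by linarith : 0 < σ x₄ - σ y))
        (mul_pos hlam (by linarith : 0 < σ x₁ - σ z))
        (mul_pos hmu (by linarith : 0 < σ x₄ - σ z)) c1' c4' (by
          intro hh
          apply crossne
          have h5 : (σ x₄ - σ x) * (σ x - σ x₁) * ((σ y - σ x₁) * (σ z - σ x₄)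
            - (σ y - σ x₄) * (σ z - σ x₁)) = 0 := by linear_combination hh
          rw [cross] at h5
          rcases mul_eq_zero.mp h5 with h6 | h6
          · exact absurd h6 (mul_pos hlam hmu).ne'
          · exact h6)
      refine this.trans_eq ?_
      ring
  have last : ((σ x₄ - σ x₁) * U) ^ 2
      = K * (((σ x₄ - σ x₁) * (σ y - σ x)) * ((σ x₄ - σ x₁) * (σ z - σ x))) := by
    rw [mul_pow, ← hArea, hK]
    ring
  linarith

lemma chain_cup {L : Finset (Set (ℝ × ℝ))} {σ τ : Set (ℝ × ℝ) → ℝ} {k : ℕ}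
    {χ : Set (ℝ × ℝ) → Fin k} (hC : UpperChains L σ τ χ) {a b c : Set (ℝ × ℝ)} (ha : a ∈ L)
    (hb : b ∈ L) (hc : c ∈ L) (hab : χ a = χ b) (hcb : χ c = χ b) (h1 : σ a < σ b)
    (h2 : σ b < σ c) :
    τ a * (σ c - σ b) + τ c * (σ b - σ a) ≤ τ b * (σ c - σ a) := by
  obtain ⟨u, hu⟩ := hC b hb
  have g1 := mul_le_mul_of_nonneg_right (hu a ha hab) (sub_nonneg.mpr h2.le)
  have g2 := mul_le_mul_of_nonneg_right (hu c hc hcb) (sub_nonneg.mpr h1.le)
  linarith

lemma chain_inj {L : Finset (Set (ℝ × ℝ))} {σ τ : Set (ℝ × ℝ) → ℝ} (hG : Graphs L σ τ)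
    {k : ℕ} {χ : Set (ℝ × ℝ) → Fin k} (hC : UpperChains L σ τ χ) {a b : Set (ℝ × ℝ)}
    (ha : a ∈ L) (hb : b ∈ L) (hab : χ a = χ b) (h : σ a = σ b) : a = b := by
  obtain ⟨u, hu⟩ := hC a ha
  obtain ⟨w, hw⟩ := hC b hb
  have g1 := hu b hb hab.symm
  have g2 := hw a ha hab
  rw [h] at g1 g2
  have : τ a = τ b := by linarith
  rw [hG a ha, hG b hb, h, this]

open Classical in
/-- the lines next to `y` and the extreme lines, in every class -/
noncomputable def WW (L : Finset (Set (ℝ × ℝ))) (σ : Set (ℝ × ℝ) → ℝ) {k : ℕ}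
    (χ : Set (ℝ × ℝ) → Fin k) (y : Set (ℝ × ℝ)) : Finset (Set (ℝ × ℝ)) :=
  (Finset.univ : Finset (Fin k)).biUnion (fun i =>
    (L.filter (fun l => χ l = i ∧ σ l < σ y ∧
        ∀ m ∈ L, χ m = i → ¬ (σ l < σ m ∧ σ m < σ y)) ∪
      L.filter (fun l => χ l = i ∧ ∀ m ∈ L, χ m = i → ¬ (σ m < σ l))) ∪
    (L.filter (fun l => χ l = i ∧ σ y < σ l ∧
        ∀ m ∈ L, χ m = i → ¬ (σ y < σ m ∧ σ m < σ l)) ∪
      L.filter (fun l => χ l = i ∧ ∀ m ∈ L, χ m = i → ¬ (σ l < σ m))))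

open Classical in
lemma card_WW {L : Finset (Set (ℝ × ℝ))} {σ τ : Set (ℝ × ℝ) → ℝ} (hG : Graphs L σ τ)
    {k : ℕ} {χ : Set (ℝ × ℝ) → Fin k} (hC : UpperChains L σ τ χ) (y : Set (ℝ × ℝ)) :
    (WW L σ χ y).card ≤ k * 4 := by
  unfold WW
  have h0 := Finset.card_biUnion_le_card_mul (Finset.univ : Finset (Fin k)) (fun i =>
    (L.filter (fun l => χ l = i ∧ σ l < σ y ∧
        ∀ m ∈ L, χ m = i → ¬ (σ l < σ m ∧ σ m < σ y)) ∪
      L.filter (fun l => χ l = i ∧ ∀ m ∈ L, χ m = i → ¬ (σ m < σ l))) ∪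
    (L.filter (fun l => χ l = i ∧ σ y < σ l ∧
        ∀ m ∈ L, χ m = i → ¬ (σ y < σ m ∧ σ m < σ l)) ∪
      L.filter (fun l => χ l = i ∧ ∀ m ∈ L, χ m = i → ¬ (σ l < σ m)))) 4 ?_
  · simpa using h0
  intro i _
  have inj : ∀ a ∈ L, ∀ b ∈ L, χ a = i → χ b = i → a ≠ b → σ a < σ b ∨ σ b < σ a := by
    intro a ha b hb h1 h2 hne
    exact lt_or_gt_of_ne (fun h => hne (chain_inj hG hC ha hb (h1.trans h2.symm) h))
  have k1 : (L.filter (fun l => χ l = i ∧ σ l < σ y ∧
        ∀ m ∈ L, χ m = i → ¬ (σ l < σ m ∧ σ m < σ y))).card ≤ 1 := by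
    rw [Finset.card_le_one]
    intro a ha b hb
    rw [Finset.mem_filter] at ha hb
    by_contra hne
    rcases inj a ha.1 b hb.1 ha.2.1 hb.2.1 hne with u | u
    · exact ha.2.2.2 b hb.1 hb.2.1 ⟨u, hb.2.2.1⟩
    · exact hb.2.2.2 a ha.1 ha.2.1 ⟨u, ha.2.2.1⟩
  have k2 : (L.filter (fun l => χ l = i ∧ ∀ m ∈ L, χ m = i → ¬ (σ m < σ l))).card ≤ 1 := by
    rw [Finset.card_le_one]
    intro a ha b hb
    rw [Finset.mem_filter] at ha hb
    by_contra hne
    rcases inj a ha.1 b hb.1 ha.2.1 hb.2.1 hne with u | u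
    · exact hb.2.2 a ha.1 ha.2.1 u
    · exact ha.2.2 b hb.1 hb.2.1 u
  have k3 : (L.filter (fun l => χ l = i ∧ σ y < σ l ∧
        ∀ m ∈ L, χ m = i → ¬ (σ y < σ m ∧ σ m < σ l))).card ≤ 1 := by
    rw [Finset.card_le_one]
    intro a ha b hb
    rw [Finset.mem_filter] at ha hb
    by_contra hne
    rcases inj a ha.1 b hb.1 ha.2.1 hb.2.1 hne with u | u
    · exact hb.2.2.2 a ha.1 ha.2.1 ⟨ha.2.2.1, u⟩
    · exact ha.2.2.2 b hb.1 hb.2.1 ⟨hb.2.2.1, u⟩
  have k4 : (L.filter (fun l => χ l = i ∧ ∀ m ∈ L, χ m = i → ¬ (σ l < σ m))).card ≤ 1 := by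
    rw [Finset.card_le_one]
    intro a ha b hb
    rw [Finset.mem_filter] at ha hb
    by_contra hne
    rcases inj a ha.1 b hb.1 ha.2.1 hb.2.1 hne with u | u
    · exact ha.2.2 b hb.1 hb.2.1 u
    · exact hb.2.2 a ha.1 ha.2.1 u
  refine (Finset.card_union_le _ _).trans ?_
  refine (Nat.add_le_add (Finset.card_union_le _ _) (Finset.card_union_le _ _)).trans ?_
  exact (Nat.add_le_add (Nat.add_le_add k1 k2) (Nat.add_le_add k3 k4))

open Classical in
lemma WW_sub (L : Finset (Set (ℝ × ℝ))) (σ : Set (ℝ × ℝ) → ℝ) {k : ℕ}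
    (χ : Set (ℝ × ℝ) → Fin k) (y : Set (ℝ × ℝ)) : WW L σ χ y ⊆ L := by
  unfold WW
  intro x hx
  rw [Finset.mem_biUnion] at hx
  obtain ⟨i, -, hx⟩ := hx
  rw [Finset.mem_union, Finset.mem_union, Finset.mem_union] at hx
  rcases hx with (hx | hx) | (hx | hx)
  · exact (Finset.mem_filter.mp hx).1
  · exact (Finset.mem_filter.mp hx).1
  · exact (Finset.mem_filter.mp hx).1
  · exact (Finset.mem_filter.mp hx).1

open Classical in
theorem chains_bound {L : Finset (Set (ℝ × ℝ))} {A : ℝ} {σ τ : Set (ℝ × ℝ) → ℝ} {k : ℕ}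
    {χ : Set (ℝ × ℝ) → Fin k} (hG : Graphs L σ τ) (hC : UpperChains L σ τ χ)
    (hA : IsMaxArea L A) : (upperTriples L A σ τ).card ≤ (4 * k - 1) * L.card := by
  have hL : ∀ l ∈ L, IsLine l := fun l hl =>
    ⟨σ l, -1, -(τ l), Or.inr (by norm_num), graph_line (hG l hl)⟩
  have hsub : upperTriples L A σ τ ⊆ L.biUnion (fun r =>
      (maxTriples L A).filter (fun T => r ∈ T ∧ T ⊆ insert r (WW L σ χ r))) := by
    intro T hT
    unfold upperTriples at hT
    rw [Finset.mem_filter] at hT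
    obtain ⟨hTm, l₁, l₂, l₃, hteq, h12, h23, hup⟩ := hT
    have hTL := (sub_L hTm).1
    have m1 : l₁ ∈ L := hTL (by rw [hteq]; simp)
    have m2 : l₂ ∈ L := hTL (by rw [hteq]; simp)
    have m3 : l₃ ∈ L := hTL (by rw [hteq]; simp)
    have hTm' := hTm
    unfold maxTriples at hTm'
    rw [Finset.mem_filter] at hTm'
    obtain ⟨-, a, b, c, habc, htr⟩ := hTm'
    have mem : ∀ l, l ∈ T → l = a ∨ l = b ∨ l = c := by
      intro l hl
      rw [habc] at hl
      simpa using hl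
    have n12 : l₁ ≠ l₂ := fun h => h12.ne (by rw [h])
    have n23 : l₂ ≠ l₃ := fun h => h23.ne (by rw [h])
    have n13 : l₁ ≠ l₃ := fun h => (h12.trans h23).ne (by rw [h])
    have htr' : TriangleArea l₁ l₂ l₃ A := tri_perm htr (mem l₁ (by rw [hteq]; simp))
      (mem l₂ (by rw [hteq]; simp)) (mem l₃ (by rw [hteq]; simp)) n12 n13 n23
    have c1 : l₁ ∈ WW L σ χ l₂ := by
      by_contra hcon
      have t1 : ∃ m ∈ L, χ m = χ l₁ ∧ σ l₁ < σ m ∧ σ m < σ l₂ := by
        by_contra hno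
        apply hcon
        unfold WW
        rw [Finset.mem_biUnion]
        refine ⟨χ l₁, Finset.mem_univ _, ?_⟩
        rw [Finset.mem_union, Finset.mem_union, Finset.mem_filter]
        left
        left
        exact ⟨m1, rfl, h12, fun m hm hχ hh => hno ⟨m, hm, hχ, hh.1, hh.2⟩⟩
      have t2 : ∃ r ∈ L, χ r = χ l₁ ∧ σ r < σ l₁ := by
        by_contra hno
        apply hcon
        unfold WW
        rw [Finset.mem_biUnion]
        refine ⟨χ l₁, Finset.mem_univ _, ?_⟩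
        rw [Finset.mem_union, Finset.mem_union, Finset.mem_filter, Finset.mem_filter]
        left
        right
        exact ⟨m1, rfl, fun m hm hχ hh => hno ⟨m, hm, hχ, hh⟩⟩
      obtain ⟨m, hm, hmχ, g1, g2⟩ := t1
      obtain ⟨r, hr, hrχ, g3⟩ := t2
      refine chain hG hA m1 m2 m3 hr hm htr' g3 g1 h23 (Or.inl g2)
        (chain_cup hC hr m1 hm hrχ hmχ g3 g1) ?_
      linarith
    have c3 : l₃ ∈ WW L σ χ l₂ := by
      by_contra hcon
      have t1 : ∃ m ∈ L, χ m = χ l₃ ∧ σ l₂ < σ m ∧ σ m < σ l₃ := by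
        by_contra hno
        apply hcon
        unfold WW
        rw [Finset.mem_biUnion]
        refine ⟨χ l₃, Finset.mem_univ _, ?_⟩
        rw [Finset.mem_union, Finset.mem_union, Finset.mem_union, Finset.mem_filter,
          Finset.mem_filter, Finset.mem_filter]
        right
        left
        exact ⟨m3, rfl, h23, fun m hm hχ hh => hno ⟨m, hm, hχ, hh.1, hh.2⟩⟩
      have t2 : ∃ r ∈ L, χ r = χ l₃ ∧ σ l₃ < σ r := by
        by_contra hno
        apply hcon
        unfold WW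
        rw [Finset.mem_biUnion]
        refine ⟨χ l₃, Finset.mem_univ _, ?_⟩
        rw [Finset.mem_union, Finset.mem_union, Finset.mem_union, Finset.mem_filter,
          Finset.mem_filter, Finset.mem_filter, Finset.mem_filter]
        right
        right
        exact ⟨m3, rfl, fun m hm hχ hh => hno ⟨m, hm, hχ, hh⟩⟩
      obtain ⟨m, hm, hmχ, g1, g2⟩ := t1
      obtain ⟨r, hr, hrχ, g3⟩ := t2
      refine chain hG hA m3 m1 m2 hm hr htr'.rot.rot g2 g3 h12 (Or.inr g1)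
        (chain_cup hC hm m3 hr hmχ hrχ g2 g3) ?_
      linarith
    rw [Finset.mem_biUnion]
    refine ⟨l₂, m2, ?_⟩
    rw [Finset.mem_filter]
    refine ⟨hTm, by rw [hteq]; simp, ?_⟩
    rw [hteq]
    intro l hl
    rw [Finset.mem_insert, Finset.mem_insert, Finset.mem_singleton] at hl
    rcases hl with rfl | rfl | rfl
    · exact Finset.mem_insert_of_mem c1
    · exact Finset.mem_insert_self _ _
    · exact Finset.mem_insert_of_mem c3
  have h1 := Finset.card_le_card hsub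
  have h2 := Finset.card_biUnion_le_card_mul L (fun r =>
      (maxTriples L A).filter (fun T => r ∈ T ∧ T ⊆ insert r (WW L σ χ r))) (4 * k - 1)
      (fun r hr => by
        have g1 := link_sub hL hA hr (WW_sub L σ χ r)
        have g2 := card_WW hG hC r
        omega)
  rw [mul_comm] at h2
  exact h1.trans h2

open Classical in
theorem convex_bound {L : Finset (Set (ℝ × ℝ))} {A : ℝ} {σ τ : Set (ℝ × ℝ) → ℝ}
    (hG : Graphs L σ τ) (hC : ∀ l ∈ L, ∃ u : ℝ, ∀ m ∈ L, σ m * u + τ m ≤ σ l * u + τ l)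
    (hA : IsMaxArea L A) : (maxTriples L A).card ≤ 3 * L.card := by
  have hC' : UpperChains L σ τ (fun _ => (0 : Fin 1)) := by
    intro l hl
    obtain ⟨u, hu⟩ := hC l hl
    exact ⟨u, fun m hm _ => hu m hm⟩
  have h1 := chains_bound hG hC' hA
  have h2 : maxTriples L A ⊆ upperTriples L A σ τ := by
    intro T hTm
    unfold upperTriples
    rw [Finset.mem_filter]
    refine ⟨hTm, ?_⟩
    have hTL := (sub_L hTm).1
    have hTm' := hTm
    unfold maxTriples at hTm'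
    rw [Finset.mem_filter] at hTm'
    obtain ⟨-, a, b, c, habc, htr⟩ := hTm'
    have ma : a ∈ L := hTL (by rw [habc]; simp)
    have mb : b ∈ L := hTL (by rw [habc]; simp)
    have mc : c ∈ L := hTL (by rw [habc]; simp)
    have main : ∀ l₁ ∈ L, ∀ l₂ ∈ L, ∀ l₃ ∈ L, TriangleArea l₁ l₂ l₃ A → σ l₁ < σ l₂ →
        σ l₂ < σ l₃ →
        τ l₁ * (σ l₃ - σ l₂) + τ l₃ * (σ l₂ - σ l₁) < τ l₂ * (σ l₃ - σ l₁) := by
      intro l₁ m1 l₂ m2 l₃ m3 ht g1 g2
      have e1 := chain_cup hC' m1 m2 m3 rfl rfl g1 g2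
      have e2 := (graph_area hG m1 m2 m3 ht).1
      rcases e1.lt_or_eq with u | u
      · exact u
      · exfalso
        apply e2
        linarith
    have nab : σ a ≠ σ b := by
      intro h
      have hab := chain_inj hG hC' ma mb rfl h
      have := (sub_L hTm).2
      rw [habc, hab] at this
      have g := Finset.card_le_two (a := b) (b := c)
      rw [Finset.insert_eq_of_mem (Finset.mem_insert_self b {c})] at this
      omega
    have nac : σ a ≠ σ c := by
      intro h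
      have hac := chain_inj hG hC' ma mc rfl h
      have := (sub_L hTm).2
      rw [habc, hac] at this
      have g := Finset.card_le_two (a := b) (b := c)
      rw [Finset.insert_eq_of_mem (by simp : c ∈ ({b, c} : Finset (Set (ℝ × ℝ))))] at this
      omega
    have nbc : σ b ≠ σ c := by
      intro h
      have hbc := chain_inj hG hC' mb mc rfl h
      have := (sub_L hTm).2
      rw [habc, hbc] at this
      have g := Finset.card_le_two (a := a) (b := c)
      rw [Finset.insert_eq_of_mem (by simp : c ∈ ({c} : Finset (Set (ℝ × ℝ))))] at this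
      omega
    have set_eq : ∀ l₁ l₂ l₃ : Set (ℝ × ℝ), (∀ l, (l = a ∨ l = b ∨ l = c) ↔
        (l = l₁ ∨ l = l₂ ∨ l = l₃)) → T = {l₁, l₂, l₃} := by
      intro l₁ l₂ l₃ h
      rw [habc]
      ext l
      simp only [Finset.mem_insert, Finset.mem_singleton]
      exact h l
    rcases lt_or_gt_of_ne nab with u | u <;> rcases lt_or_gt_of_ne nac with w | w <;>
      rcases lt_or_gt_of_ne nbc with s | s
    · exact ⟨a, b, c, set_eq _ _ _ (fun l => by tauto), u, s, main a ma b mb c mc htr u s⟩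
    · exact ⟨a, c, b, set_eq _ _ _ (fun l => by tauto), w, s,
        main a ma c mc b mb htr.swap.rot w s⟩
    · exact absurd (u.trans s) (not_lt.mpr w.le)
    · exact ⟨c, a, b, set_eq _ _ _ (fun l => by tauto), w, u,
        main c mc a ma b mb htr.rot.rot w u⟩
    · exact ⟨b, a, c, set_eq _ _ _ (fun l => by tauto), u, w,
        main b mb a ma c mc htr.swap u w⟩
    · exact absurd (s.trans u) (not_lt.mpr w.le)
    · exact ⟨b, c, a, set_eq _ _ _ (fun l => by tauto), s, w,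
        main b mb c mc a ma htr.rot s w⟩
    · exact ⟨c, b, a, set_eq _ _ _ (fun l => by tauto), s, u,
        main c mc b mb a ma htr.rot.swap s u⟩
  have h3 := Finset.card_le_card h2
  omega

end Pool.Agent.MP27bb56p
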