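import Pool.Agent.Lib.MP_27bb56_h90.Defs

/-!
Definitions for the hand-in PencilCover of the problem MP_27bb56_co.
-/

namespace Pool.Agent.MP27bb56p

/-- the line `a x + b y = c` -/
def line (a b c : ℝ) : Set (ℝ × ℝ) := {p | a * p.1 + b * p.2 = c}

/-- every line of `L` contains one of the points of `P` or has a normal vector in `V` -/
def CoveredBy (L : Finset (Set (ℝ × ℝ))) (P V : Finset (ℝ × ℝ)) : Prop :=
  ∀ l ∈ L, (∃ p ∈ P, p ∈ l) ∨ (∃ v ∈ V, v ≠ 0 ∧ ∃ c : ℝ, l = line v.1 v.2 c)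

end Pool.Agent.MP27bb56p
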