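import Pool.Agent.Lib.MP_27bb56_h26.Chains

/-!
Triangles of maximum area and envelopes.
-/

namespace Pool.Agent.MP27bb56p

open Pool.Agent.MP27bb56

/-- `θ` is `τ` or `-τ` -/
def Sgn (τ θ : Set (ℝ × ℝ) → ℝ) : Prop := (∀ l, θ l = τ l) ∨ (∀ l, θ l = -(τ l))

lemma sgn_sq {σ τ θ : Set (ℝ × ℝ) → ℝ} (h : Sgn τ θ) (x y z : Set (ℝ × ℝ)) :
    (θ x * (σ z - σ y) + θ z * (σ y - σ x) - θ y * (σ z - σ x)) ^ 2
      = (τ x * (σ z - σ y) + τ z * (σ y - σ x) - τ y * (σ z - σ x)) ^ 2 := by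
  rcases h with h | h
  · rw [h x, h y, h z]
  · rw [h x, h y, h z]
    ring

/-- the inequality for a chain, in numbers -/
lemma chain_real {A sx sy sz s₁ s₄ tx ty tz t₁ t₄ : ℝ} (hApos : 0 < A)
    (hArea : A * (2 * |(sy - sx) * (sz - sx) * (sz - sy)|)
      = (tx * (sz - sy) + tz * (sy - sx) - ty * (sz - sx)) ^ 2)
    (b1 : (t₁ * (sz - sy) + tz * (sy - s₁) - ty * (sz - s₁)) ^ 2
      ≤ A * (2 * |(sy - s₁) * (sz - s₁) * (sz - sy)|))
    (b4 : (t₄ * (sz - sy) + tz * (sy - s₄) - ty * (sz - s₄)) ^ 2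
      ≤ A * (2 * |(sy - s₄) * (sz - s₄) * (sz - sy)|))
    (s1 : s₁ < sx) (s4 : sx < s₄) (hR : sy < sz) (side : s₄ < sy ∨ sz < s₁)
    (hcup : t₁ * (s₄ - sx) + t₄ * (sx - s₁) ≤ tx * (s₄ - s₁))
    (hU : tx * (sz - sy) + tz * (sy - sx) < ty * (sz - sx)) : False := by
  have hR' : 0 < sz - sy := sub_pos.mpr hR
  have prod : ∀ w : ℝ, (w < sy ∨ sz < w) →
      |(sy - w) * (sz - w) * (sz - sy)| = (sy - w) * (sz - w) * (sz - sy) := by
    intro w hw
    apply abs_of_nonneg
    apply mul_nonneg _ hR'.le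
    rcases hw with g | g
    · exact mul_nonneg (by linarith) (by linarith)
    · exact mul_nonneg_of_nonpos_of_nonpos (by linarith) (by linarith)
  rw [prod sx (by rcases side with g | g; exacts [Or.inl (s4.trans g), Or.inr (g.trans s1)])]
    at hArea
  rw [prod s₁ (by
    rcases side with g | g; exacts [Or.inl ((s1.trans s4).trans g), Or.inr g])] at b1
  rw [prod s₄ (by
    rcases side with g | g; exacts [Or.inl g, Or.inr (g.trans (s1.trans s4))])] at b4
  set U := tx * (sz - sy) + tz * (sy - sx) - ty * (sz - sx) with hUdef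
  set U₁ := t₁ * (sz - sy) + tz * (sy - s₁) - ty * (sz - s₁) with hU1def
  set U₄ := t₄ * (sz - sy) + tz * (sy - s₄) - ty * (sz - s₄) with hU4def
  have hUneg : U < 0 := by
    rw [hUdef]
    linarith
  have hlam : 0 < s₄ - sx := sub_pos.mpr s4
  have hmu : 0 < sx - s₁ := sub_pos.mpr s1
  have hcomb : (s₄ - sx) * U₁ + (sx - s₁) * U₄ ≤ (s₄ - s₁) * U := by
    have e : (s₄ - s₁) * U - ((s₄ - sx) * U₁ + (sx - s₁) * U₄)
        = (sz - sy) * (tx * (s₄ - s₁) - (t₁ * (s₄ - sx) + t₄ * (sx - s₁))) := by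
      rw [hUdef, hU1def, hU4def]
      ring
    have : 0 ≤ (sz - sy) * (tx * (s₄ - s₁) - (t₁ * (s₄ - sx) + t₄ * (sx - s₁))) :=
      mul_nonneg hR'.le (by linarith)
    linarith
  have hsq : ((s₄ - s₁) * U) ^ 2 ≤ ((s₄ - sx) * U₁ + (sx - s₁) * U₄) ^ 2 := by
    have n1 : (s₄ - s₁) * U < 0 := mul_neg_of_pos_of_neg (by linarith) hUneg
    exact sq_aux hcomb n1
  set K := A * (2 * (sz - sy)) with hK
  have hKpos : 0 < K := by positivity
  have c1 : ((s₄ - sx) * U₁) ^ 2 ≤ K * (((s₄ - sx) * (sy - s₁)) * ((s₄ - sx) * (sz - s₁))) := by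
    have := mul_le_mul_of_nonneg_left b1 (sq_nonneg (s₄ - sx))
    calc ((s₄ - sx) * U₁) ^ 2 = (s₄ - sx) ^ 2 * U₁ ^ 2 := by ring
      _ ≤ _ := this
      _ = _ := by rw [hK]; ring
  have c4 : ((sx - s₁) * U₄) ^ 2 ≤ K * (((sx - s₁) * (sy - s₄)) * ((sx - s₁) * (sz - s₄))) := by
    have := mul_le_mul_of_nonneg_left b4 (sq_nonneg (sx - s₁))
    calc ((sx - s₁) * U₄) ^ 2 = (sx - s₁) ^ 2 * U₄ ^ 2 := by ring
      _ ≤ _ := this
      _ = _ := by rw [hK]; ring
  have fin : ((s₄ - sx) * U₁ + (sx - s₁) * U₄) ^ 2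
      < K * (((s₄ - s₁) * (sy - sx)) * ((s₄ - s₁) * (sz - sx))) := by
    have s5 : s₁ < s₄ := s1.trans s4
    have cross : (sy - s₁) * (sz - s₄) - (sy - s₄) * (sz - s₁)
        = (s₄ - s₁) * (sz - sy) := by ring
    have crossne : (s₄ - s₁) * (sz - sy) ≠ 0 := (mul_pos (by linarith) hR').ne'
    rcases side with g | g
    · have := cs hKpos (mul_pos hlam (by linarith : 0 < sy - s₁))
        (mul_pos hmu (by linarith : 0 < sy - s₄))
        (mul_pos hlam (by linarith : 0 < sz - s₁))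
        (mul_pos hmu (by linarith : 0 < sz - s₄)) c1 c4 (by
          intro hh
          apply crossne
          have h5 : (s₄ - sx) * (sx - s₁) * ((sy - s₁) * (sz - s₄)
            - (sy - s₄) * (sz - s₁)) = 0 := by linear_combination hh
          rw [cross] at h5
          rcases mul_eq_zero.mp h5 with h6 | h6
          · exact absurd h6 (mul_pos hlam hmu).ne'
          · exact h6)
      refine this.trans_eq ?_
      ring
    · have c1' : ((s₄ - sx) * U₁) ^ 2 ≤ K * (((s₄ - sx) * (s₁ - sy)) *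
          ((s₄ - sx) * (s₁ - sz))) := c1.trans_eq (by ring)
      have c4' : ((sx - s₁) * U₄) ^ 2 ≤ K * (((sx - s₁) * (s₄ - sy)) *
          ((sx - s₁) * (s₄ - sz))) := c4.trans_eq (by ring)
      have := cs hKpos (mul_pos hlam (by linarith : 0 < s₁ - sy))
        (mul_pos hmu (by linarith : 0 < s₄ - sy))
        (mul_pos hlam (by linarith : 0 < s₁ - sz))
        (mul_pos hmu (by linarith : 0 < s₄ - sz)) c1' c4' (by
          intro hh
          apply crossne
          have h5 : (s₄ - sx) * (sx - s₁) * ((sy - s₁) * (sz - s₄)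
            - (sy - s₄) * (sz - s₁)) = 0 := by linear_combination hh
          rw [cross] at h5
          rcases mul_eq_zero.mp h5 with h6 | h6
          · exact absurd h6 (mul_pos hlam hmu).ne'
          · exact h6)
      refine this.trans_eq ?_
      ring
  have last : ((s₄ - s₁) * U) ^ 2
      = K * (((s₄ - s₁) * (sy - sx)) * ((s₄ - s₁) * (sz - sx))) := by
    rw [mul_pow, ← hArea, hK]
    ring
  linarith

open Classical in
/-- a line without an edge on the lower envelope is above (or on) the common point of two others,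
or above a parallel one -/
lemma not_low {σ θ : Set (ℝ × ℝ) → ℝ} {S : Finset (Set (ℝ × ℝ))} {x : Set (ℝ × ℝ)}
    (hx : x ∈ S) (hinj : ∀ m ∈ S, m ≠ x → σ m = σ x → θ m ≠ θ x) (h : x ∉ low σ θ S) :
    (∃ m ∈ S, σ m = σ x ∧ θ m < θ x) ∨
      (∃ a ∈ S, ∃ c ∈ S, σ a < σ x ∧ σ x < σ c ∧
        θ a * (σ c - σ x) + θ c * (σ x - σ a) ≤ θ x * (σ c - σ a)) := by
  by_contra hcon
  rw [not_or] at hcon
  obtain ⟨k1, k2⟩ := hcon
  have hno : ∀ u : ℝ, ∃ m ∈ S, σ m ≠ σ x ∧ σ m * u + θ m ≤ σ x * u + θ x := by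
    intro u
    by_contra hcon
    apply h
    unfold low
    rw [Finset.mem_filter]
    refine ⟨hx, u, ?_⟩
    intro m hm hmx
    by_contra hlt
    have g1 := not_lt.mp hlt
    by_cases hs : σ m = σ x
    · apply k1
      refine ⟨m, hm, hs, lt_of_le_of_ne ?_ (hinj m hm hmx hs)⟩
      rw [hs] at g1
      linarith
    · exact hcon ⟨m, hm, hs, g1⟩
  have posB : ∀ (m : Set (ℝ × ℝ)) (u : ℝ), σ m < σ x → σ m * u + θ m ≤ σ x * u + θ x →
      (θ m - θ x) / (σ x - σ m) ≤ u := by
    intro m u h1 h2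
    rw [div_le_iff₀ (sub_pos.mpr h1)]
    linarith
  have posC : ∀ (m : Set (ℝ × ℝ)) (u : ℝ), σ x < σ m → σ m * u + θ m ≤ σ x * u + θ x →
      u ≤ (θ x - θ m) / (σ m - σ x) := by
    intro m u h1 h2
    rw [le_div_iff₀ (sub_pos.mpr h1)]
    linarith
  have memB : ∀ m ∈ S, σ m < σ x → m ∈ S.filter (fun m => σ m < σ x) :=
    fun m hm hh => Finset.mem_filter.mpr ⟨hm, hh⟩
  have memC : ∀ m ∈ S, σ x < σ m → m ∈ S.filter (fun m => σ x < σ m) :=
    fun m hm hh => Finset.mem_filter.mpr ⟨hm, hh⟩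
  rcases Finset.eq_empty_or_nonempty (S.filter (fun m => σ m < σ x)) with hB | hB
  · rcases Finset.eq_empty_or_nonempty (S.filter (fun m => σ x < σ m)) with hC | hC
    · obtain ⟨m, hm, hne, -⟩ := hno 0
      rcases lt_or_gt_of_ne hne with g | g
      · have := memB m hm g
        rw [hB] at this
        simp at this
      · have := memC m hm g
        rw [hC] at this
        simp at this
    · obtain ⟨c, hc, hmax⟩ := Finset.exists_max_image _
        (fun m => (θ x - θ m) / (σ m - σ x)) hC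
      obtain ⟨m, hm, hne, hle⟩ := hno ((θ x - θ c) / (σ c - σ x) + 1)
      rcases lt_or_gt_of_ne hne with g | g
      · have := memB m hm g
        rw [hB] at this
        simp at this
      · have g1 := posC m _ g hle
        have g2 := hmax m (memC m hm g)
        linarith
  · obtain ⟨a, ha, hmin⟩ := Finset.exists_min_image _
        (fun m => (θ m - θ x) / (σ x - σ m)) hB
    have ha' := Finset.mem_filter.mp ha
    rcases Finset.eq_empty_or_nonempty (S.filter (fun m => σ x < σ m)) with hC | hC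
    · obtain ⟨m, hm, hne, hle⟩ := hno ((θ a - θ x) / (σ x - σ a) - 1)
      rcases lt_or_gt_of_ne hne with g | g
      · have g1 := posB m _ g hle
        have g2 := hmin m (memB m hm g)
        linarith
      · have := memC m hm g
        rw [hC] at this
        simp at this
    · obtain ⟨c, hc, hmax⟩ := Finset.exists_max_image _
        (fun m => (θ x - θ m) / (σ m - σ x)) hC
      have hc' := Finset.mem_filter.mp hc
      by_cases hlt : (θ x - θ c) / (σ c - σ x) < (θ a - θ x) / (σ x - σ a)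
      · obtain ⟨m, hm, hne, hle⟩ := hno
          (((θ x - θ c) / (σ c - σ x) + (θ a - θ x) / (σ x - σ a)) / 2)
        rcases lt_or_gt_of_ne hne with g | g
        · have g1 := posB m _ g hle
          have g2 := hmin m (memB m hm g)
          linarith
        · have g1 := posC m _ g hle
          have g2 := hmax m (memC m hm g)
          linarith
      · apply k2
        refine ⟨a, ha'.1, c, hc'.1, ha'.2, hc'.2, ?_⟩
        have pa : 0 < σ x - σ a := sub_pos.mpr ha'.2
        have pc : 0 < σ c - σ x := sub_pos.mpr hc'.2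
        have h1 := not_lt.mp hlt
        have h2 : (θ a - θ x) / (σ x - σ a) * (σ x - σ a) = θ a - θ x :=
          div_mul_cancel₀ _ pa.ne'
        rw [le_div_iff₀ pc] at h1
        set u := (θ a - θ x) / (σ x - σ a) with hu
        have h3 := mul_le_mul_of_nonneg_right h1 pa.le
        have h4 : u * (σ x - σ a) * (σ c - σ x) = (θ a - θ x) * (σ c - σ x) := by rw [h2]
        nlinarith

lemma env {L : Finset (Set (ℝ × ℝ))} {A : ℝ} {σ τ θ : Set (ℝ × ℝ) → ℝ} (hG : Graphs L σ τ)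
    (hA : IsMaxArea L A) (hs : Sgn τ θ) {x y z : Set (ℝ × ℝ)} (hx : x ∈ L) (hy : y ∈ L)
    (hz : z ∈ L) {S : Finset (Set (ℝ × ℝ))} (hS : S ⊆ L) (hxS : x ∈ S)
    (ht : TriangleArea x y z A) (hR : σ y < σ z)
    (side : (∀ m ∈ S, σ m < σ y) ∨ (∀ m ∈ S, σ z < σ m))
    (hU : θ x * (σ z - σ y) + θ z * (σ y - σ x) < θ y * (σ z - σ x)) : x ∈ low σ θ S := by
  by_contra hcon
  have hA0 := area_nonneg ht
  obtain ⟨hne, hArea⟩ := graph_area hG hx hy hz ht
  have hApos : 0 < A := by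
    rcases hA0.lt_or_eq with u | u
    · exact u
    · exfalso
      rw [← u, zero_mul] at hArea
      exact hne (pow_eq_zero_iff (two_ne_zero)|>.mp hArea.symm)
  rw [← sgn_sq hs] at hArea
  have ny : ∀ m ∈ S, σ m ≠ σ y := by
    intro m hm
    rcases side with g | g
    · exact (g m hm).ne
    · exact (hR.trans (g m hm)).ne'
  have nz : ∀ m ∈ S, σ m ≠ σ z := by
    intro m hm
    rcases side with g | g
    · exact ((g m hm).trans hR).ne
    · exact (g m hm).ne'
  have le : ∀ m ∈ S, (θ m * (σ z - σ y) + θ z * (σ y - σ m) - θ y * (σ z - σ m)) ^ 2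
      ≤ A * (2 * |(σ y - σ m) * (σ z - σ m) * (σ z - σ y)|) := by
    intro m hm
    have := graph_le hG hA hA0 (hS hm) hy hz (ny m hm) (nz m hm) hR.ne
    rwa [← sgn_sq hs] at this
  have hinj : ∀ m ∈ S, m ≠ x → σ m = σ x → θ m ≠ θ x := by
    intro m hm hmx hsm hθ
    apply hmx
    have ht : τ m = τ x := by
      rcases hs with g | g
      · rw [← g m, ← g x, hθ]
      · have := g m
        have := g x
        linarith
    rw [hG m (hS hm), hG x hx, hsm, ht]
  rcases not_low hxS hinj hcon with ⟨m, hm, h1, h2⟩ | ⟨a, ha, c, hc, h1, h2, h3⟩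
  · have b := le m hm
    rw [h1, hArea] at b
    have hR' : 0 < σ z - σ y := sub_pos.mpr hR
    have g1 : θ m * (σ z - σ y) < θ x * (σ z - σ y) := mul_lt_mul_of_pos_right h2 hR'
    have g2 : θ m * (σ z - σ y) + θ z * (σ y - σ x) - θ y * (σ z - σ x)
        < θ x * (σ z - σ y) + θ z * (σ y - σ x) - θ y * (σ z - σ x) := by linarith
    have g3 : θ x * (σ z - σ y) + θ z * (σ y - σ x) - θ y * (σ z - σ x) < 0 := by linarith
    generalize θ m * (σ z - σ y) + θ z * (σ y - σ x) - θ y * (σ z - σ x) = p at b g2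
    generalize θ x * (σ z - σ y) + θ z * (σ y - σ x) - θ y * (σ z - σ x) = q at b g2 g3
    nlinarith
  · refine chain_real hApos hArea (le a ha) (le c hc) h1 h2 hR ?_ h3 hU
    rcases side with g | g
    · exact Or.inl (g c hc)
    · exact Or.inr (g a ha)

open Classical in
/-- the generic triples -/
noncomputable def trip (L : Finset (Set (ℝ × ℝ))) (A : ℝ)
    (σ θ : Set (ℝ × ℝ) → ℝ) : Finset (Finset (Set (ℝ × ℝ))) :=
  (maxTriples L A).filter (fun T => ∃ l₁ l₂ l₃, T = {l₁, l₂, l₃} ∧ σ l₁ < σ l₂ ∧ σ l₂ < σ l₃ ∧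
    θ l₁ * (σ l₃ - σ l₂) + θ l₃ * (σ l₂ - σ l₁) < θ l₂ * (σ l₃ - σ l₁))

lemma graphs_line {L : Finset (Set (ℝ × ℝ))} {σ τ : Set (ℝ × ℝ) → ℝ} (hG : Graphs L σ τ) :
    ∀ l ∈ L, IsLine l := fun l hl =>
  ⟨σ l, -1, -(τ l), Or.inr (by norm_num), graph_line (hG l hl)⟩

open Classical in
theorem env_bound {L : Finset (Set (ℝ × ℝ))} {A : ℝ} {σ τ θ : Set (ℝ × ℝ) → ℝ}
    (hG : Graphs L σ τ) (hs : Sgn τ θ) (hA : IsMaxArea L A) :
    (trip L A σ θ).card
      ≤ ∑ l ∈ L, ((low σ θ (lft σ L l)).card + (low σ θ (rgt σ L l)).card - 1) := by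
  have hL := graphs_line hG
  have sl : ∀ l, lft σ L l ⊆ L := fun l => Finset.filter_subset _ _
  have sr : ∀ l, rgt σ L l ⊆ L := fun l => Finset.filter_subset _ _
  have lowsub : ∀ S, low σ θ S ⊆ S := fun S => Finset.filter_subset _ _
  have hsub : trip L A σ θ ⊆ L.biUnion (fun r =>
      (maxTriples L A).filter (fun T => r ∈ T ∧
        T ⊆ insert r (low σ θ (lft σ L r) ∪ low σ θ (rgt σ L r)))) := by
    intro T hT
    unfold trip at hT
    rw [Finset.mem_filter] at hT
    obtain ⟨hTm, l₁, l₂, l₃, hteq, h12, h23, hup⟩ := hT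
    have hTL := (sub_L hTm).1
    have m1 : l₁ ∈ L := hTL (by rw [hteq]; simp)
    have m2 : l₂ ∈ L := hTL (by rw [hteq]; simp)
    have m3 : l₃ ∈ L := hTL (by rw [hteq]; simp)
    have hTm' := hTm
    unfold maxTriples at hTm'
    rw [Finset.mem_filter] at hTm'
    obtain ⟨-, a, b, c, habc, htr⟩ := hTm'
    have mem : ∀ l, l ∈ T → l = a ∨ l = b ∨ l = c := by
      intro l hl
      rw [habc] at hl
      simpa using hl
    have n12 : l₁ ≠ l₂ := fun h => h12.ne (by rw [h])
    have n23 : l₂ ≠ l₃ := fun h => h23.ne (by rw [h])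
    have n13 : l₁ ≠ l₃ := fun h => (h12.trans h23).ne (by rw [h])
    have htr' : TriangleArea l₁ l₂ l₃ A := tri_perm htr (mem l₁ (by rw [hteq]; simp))
      (mem l₂ (by rw [hteq]; simp)) (mem l₃ (by rw [hteq]; simp)) n12 n13 n23
    have c1 : l₁ ∈ low σ θ (lft σ L l₂) := by
      refine env hG hA hs m1 m2 m3 (sl l₂) ?_ htr' h23 (Or.inl ?_) (by linarith)
      · unfold lft
        rw [Finset.mem_filter]
        exact ⟨m1, h12⟩
      · intro m hm
        unfold lft at hm
        rw [Finset.mem_filter] at hm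
        exact hm.2
    have c3 : l₃ ∈ low σ θ (rgt σ L l₂) := by
      refine env hG hA hs m3 m1 m2 (sr l₂) ?_ htr'.rot.rot h12 (Or.inr ?_) (by linarith)
      · unfold rgt
        rw [Finset.mem_filter]
        exact ⟨m3, h23⟩
      · intro m hm
        unfold rgt at hm
        rw [Finset.mem_filter] at hm
        exact hm.2
    rw [Finset.mem_biUnion]
    refine ⟨l₂, m2, ?_⟩
    rw [Finset.mem_filter]
    refine ⟨hTm, by rw [hteq]; simp, ?_⟩
    rw [hteq]
    intro l hl
    rw [Finset.mem_insert, Finset.mem_insert, Finset.mem_singleton] at hl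
    rw [Finset.mem_insert, Finset.mem_union]
    rcases hl with rfl | rfl | rfl
    · exact Or.inr (Or.inl c1)
    · exact Or.inl rfl
    · exact Or.inr (Or.inr c3)
  refine (Finset.card_le_card hsub).trans (Finset.card_biUnion_le.trans ?_)
  refine Finset.sum_le_sum (fun r hr => ?_)
  refine (link_sub hL hA hr (Finset.union_subset ((lowsub _).trans (sl r))
    ((lowsub _).trans (sr r)))).trans ?_
  exact Nat.sub_le_sub_right (Finset.card_union_le _ _) 1

lemma low_neg (σ τ : Set (ℝ × ℝ) → ℝ) (S : Finset (Set (ℝ × ℝ))) :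
    low σ (fun l => -(τ l)) S = upp σ τ S := by
  classical
  unfold low upp
  ext l
  rw [Finset.mem_filter, Finset.mem_filter]
  constructor
  · rintro ⟨h1, u, hu⟩
    refine ⟨h1, -u, fun m hm hml => ?_⟩
    have := hu m hm hml
    linarith
  · rintro ⟨h1, u, hu⟩
    refine ⟨h1, -u, fun m hm hml => ?_⟩
    have := hu m hm hml
    linarith

lemma trip_neg (L : Finset (Set (ℝ × ℝ))) (A : ℝ) (σ τ : Set (ℝ × ℝ) → ℝ) :
    trip L A σ (fun l => -(τ l)) = lowerTriples L A σ τ := by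
  classical
  unfold trip lowerTriples
  ext T
  rw [Finset.mem_filter, Finset.mem_filter]
  constructor
  · rintro ⟨h1, l₁, l₂, l₃, h2, h3, h4, h5⟩
    exact ⟨h1, l₁, l₂, l₃, h2, h3, h4, by linarith⟩
  · rintro ⟨h1, l₁, l₂, l₃, h2, h3, h4, h5⟩
    exact ⟨h1, l₁, l₂, l₃, h2, h3, h4, by linarith⟩

theorem upper_bound {L : Finset (Set (ℝ × ℝ))} {A : ℝ} {σ τ : Set (ℝ × ℝ) → ℝ}
    (hG : Graphs L σ τ) (hA : IsMaxArea L A) :
    (upperTriples L A σ τ).card
      ≤ ∑ l ∈ L, ((low σ τ (lft σ L l)).card + (low σ τ (rgt σ L l)).card - 1) :=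
  env_bound hG (Or.inl fun _ => rfl) hA

theorem lower_bound {L : Finset (Set (ℝ × ℝ))} {A : ℝ} {σ τ : Set (ℝ × ℝ) → ℝ}
    (hG : Graphs L σ τ) (hA : IsMaxArea L A) :
    (lowerTriples L A σ τ).card
      ≤ ∑ l ∈ L, ((upp σ τ (lft σ L l)).card + (upp σ τ (rgt σ L l)).card - 1) := by
  have := env_bound (θ := fun l => -(τ l)) hG (Or.inr fun _ => rfl) hA
  rw [trip_neg] at this
  simp only [low_neg] at this
  exact this

lemma slopes_ne {L : Finset (Set (ℝ × ℝ))} {A : ℝ} {σ τ : Set (ℝ × ℝ) → ℝ}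
    (hG : Graphs L σ τ) {x y z : Set (ℝ × ℝ)} (hx : x ∈ L) (hy : y ∈ L) (hz : z ∈ L)
    (ht : TriangleArea x y z A) : σ x ≠ σ y ∧ σ x ≠ σ z ∧ σ y ≠ σ z := by
  have ex := graph_line (hG x hx)
  have ey := graph_line (hG y hy)
  have ez := graph_line (hG z hz)
  have ht' : TriangleArea (ln (σ x) (-1) (-(τ x))) (ln (σ y) (-1) (-(τ y)))
      (ln (σ z) (-1) (-(τ z))) A := by
    have : TriangleArea (line (σ x) (-1) (-(τ x))) (line (σ y) (-1) (-(τ y)))
        (line (σ z) (-1) (-(τ z))) A := by rwa [← ex, ← ey, ← ez]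
    exact this
  obtain ⟨d12, d13, d23, -, -⟩ := area_of (Or.inr (by norm_num)) (Or.inr (by norm_num)) ht'
  unfold D at d12 d13 d23
  refine ⟨fun h => d12 ?_, fun h => d13 ?_, fun h => d23 ?_⟩
  · rw [h]
    ring
  · rw [h]
    ring
  · rw [h]
    ring

open Classical in
theorem all_triples {L : Finset (Set (ℝ × ℝ))} {A : ℝ} {σ τ : Set (ℝ × ℝ) → ℝ}
    (hG : Graphs L σ τ) :
    maxTriples L A = upperTriples L A σ τ ∪ lowerTriples L A σ τ := by
  apply Finset.Subset.antisymm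
  · intro T hTm
    have hTL := (sub_L hTm).1
    have hTm' := hTm
    unfold maxTriples at hTm'
    rw [Finset.mem_filter] at hTm'
    obtain ⟨-, a, b, c, habc, htr⟩ := hTm'
    have ma : a ∈ L := hTL (by rw [habc]; simp)
    have mb : b ∈ L := hTL (by rw [habc]; simp)
    have mc : c ∈ L := hTL (by rw [habc]; simp)
    obtain ⟨nab, nac, nbc⟩ := slopes_ne hG ma mb mc htr
    have set_eq : ∀ l₁ l₂ l₃ : Set (ℝ × ℝ), (∀ l, (l = a ∨ l = b ∨ l = c) ↔
        (l = l₁ ∨ l = l₂ ∨ l = l₃)) → T = {l₁, l₂, l₃} := by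
      intro l₁ l₂ l₃ h
      rw [habc]
      ext l
      simp only [Finset.mem_insert, Finset.mem_singleton]
      exact h l
    have main : ∀ l₁ ∈ L, ∀ l₂ ∈ L, ∀ l₃ ∈ L, TriangleArea l₁ l₂ l₃ A → σ l₁ < σ l₂ →
        σ l₂ < σ l₃ → T = {l₁, l₂, l₃} →
        T ∈ upperTriples L A σ τ ∪ lowerTriples L A σ τ := by
      intro l₁ m1 l₂ m2 l₃ m3 ht g1 g2 hT
      have e2 := (graph_area hG m1 m2 m3 ht).1
      rw [Finset.mem_union]
      unfold upperTriples lowerTriples
      rw [Finset.mem_filter, Finset.mem_filter]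
      have : τ l₂ * (σ l₃ - σ l₁) ≠ τ l₁ * (σ l₃ - σ l₂) + τ l₃ * (σ l₂ - σ l₁) := by
        intro h
        apply e2
        linarith
      rcases lt_or_gt_of_ne this with u | u
      · exact Or.inr ⟨hTm, l₁, l₂, l₃, hT, g1, g2, u⟩
      · exact Or.inl ⟨hTm, l₁, l₂, l₃, hT, g1, g2, u⟩
    rcases lt_or_gt_of_ne nab with u | u <;> rcases lt_or_gt_of_ne nac with w | w <;>
      rcases lt_or_gt_of_ne nbc with s | s
    · exact main a ma b mb c mc htr u s (set_eq _ _ _ (fun l => by tauto))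
    · exact main a ma c mc b mb htr.swap.rot w s (set_eq _ _ _ (fun l => by tauto))
    · exact absurd (u.trans s) (not_lt.mpr w.le)
    · exact main c mc a ma b mb htr.rot.rot w u (set_eq _ _ _ (fun l => by tauto))
    · exact main b mb a ma c mc htr.swap u w (set_eq _ _ _ (fun l => by tauto))
    · exact absurd (s.trans u) (not_lt.mpr w.le)
    · exact main b mb c mc a ma htr.rot s w (set_eq _ _ _ (fun l => by tauto))
    · exact main c mc b mb a ma htr.rot.swap s u (set_eq _ _ _ (fun l => by tauto))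
  · intro T hT
    rw [Finset.mem_union] at hT
    unfold upperTriples lowerTriples at hT
    rcases hT with hT | hT
    · exact (Finset.mem_filter.mp hT).1
    · exact (Finset.mem_filter.mp hT).1

end Pool.Agent.MP27bb56p
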