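import Pool.Agent.Lib.MP_27bb56_h90.Link
import Pool.Agent.Lib.MP_27bb56_h26.Defs

/-!
Triangles of maximum area in arrangements covered by few pencils of lines.
-/

namespace Pool.Agent.MP27bb56p

open Pool.Agent.MP27bb56

/-- the elements of `L` are lines with at most `k` directions: there is a set of at most `k`
vectors such that every element of `L` is a line with a normal vector in this set -/
def AtMostDirections (L : Finset (Set (ℝ × ℝ))) (k : ℕ) : Prop :=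
  ∃ V : Finset (ℝ × ℝ), V.card ≤ k ∧ ∀ l ∈ L, ∃ v ∈ V, v ≠ 0 ∧ ∃ c : ℝ, l = line v.1 v.2 c

/-- `l` lies strictly between two lines of `L` that are parallel to it -/
def Inner (L : Finset (Set (ℝ × ℝ))) (l : Set (ℝ × ℝ)) : Prop :=
  ∃ a b c₁ c c₂ : ℝ, (a ≠ 0 ∨ b ≠ 0) ∧ c₁ < c ∧ c < c₂ ∧
    line a b c₁ ∈ L ∧ l = line a b c ∧ line a b c₂ ∈ L

open Classical in
/-- the lines of `L` that do not lie strictly between two lines of `L` parallel to them -/
noncomputable def outer (L : Finset (Set (ℝ × ℝ))) : Finset (Set (ℝ × ℝ)) :=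
  L.filter (fun l => ¬ Inner L l)

/-- the inequality for the lines of `L` -/
lemma del_le {L : Finset (Set (ℝ × ℝ))} {A : ℝ} (hA : IsMaxArea L A)
    {a b c a₂ b₂ e₂ a₃ b₃ e₃ : ℝ} (h1 : line a b c ∈ L) (h2 : line a₂ b₂ e₂ ∈ L)
    (h3 : line a₃ b₃ e₃ ∈ L) (hA0 : 0 ≤ A) (d12 : D a b a₂ b₂ ≠ 0) (d13 : D a b a₃ b₃ ≠ 0)
    (d23 : D a₂ b₂ a₃ b₃ ≠ 0) :
    Del a b c a₂ b₂ e₂ a₃ b₃ e₃ ^ 2
      ≤ A * (2 * |D a b a₂ b₂ * D a b a₃ b₃ * D a₂ b₂ a₃ b₃|) := by
  by_cases h0 : Del a b c a₂ b₂ e₂ a₃ b₃ e₃ = 0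
  · rw [h0]
    have : (0 : ℝ) ≤ A * (2 * |D a b a₂ b₂ * D a b a₃ b₃ * D a₂ b₂ a₃ b₃|) := by positivity
    simpa using this
  · obtain ⟨A', hA', hArea'⟩ := exists_area d12 d13 d23 h0
    have h4 := hA.2 _ h1 _ h2 _ h3 A' hA'
    rw [← hArea']
    exact mul_le_mul_of_nonneg_right h4 (by positivity)

lemma area_nonneg {l₁ l₂ l₃ : Set (ℝ × ℝ)} {A : ℝ} (h : TriangleArea l₁ l₂ l₃ A) : 0 ≤ A := by
  obtain ⟨P, Q, R, -, -, -, -, h5⟩ := h
  rw [h5]
  positivity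

lemma not_inner {L : Finset (Set (ℝ × ℝ))} {A : ℝ} (hL : ∀ l ∈ L, IsLine l)
    (hA : IsMaxArea L A) {l₁ l₂ l₃ : Set (ℝ × ℝ)} (h2 : l₂ ∈ L) (h3 : l₃ ∈ L)
    (ht : TriangleArea l₁ l₂ l₃ A) : ¬ Inner L l₁ := by
  rintro ⟨a, b, c₁, c, c₂, -, h1c, hc2, hm1, rfl, hm2⟩
  obtain ⟨a₂, b₂, e₂, hn2, rfl⟩ := hL l₂ h2
  obtain ⟨a₃, b₃, e₃, hn3, rfl⟩ := hL l₃ h3
  have hA0 := area_nonneg ht
  obtain ⟨d12, d13, d23, -, hArea⟩ := area_of (a₁ := a) (b₁ := b) (c₁ := c) (a₂ := a₂)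
    (b₂ := b₂) (c₂ := e₂) (a₃ := a₃) (b₃ := b₃) (c₃ := e₃) hn2 hn3 ht
  have k1 := del_le hA hm1 h2 h3 hA0 d12 d13 d23
  have k2 := del_le hA hm2 h2 h3 hA0 d12 d13 d23
  rw [hArea] at k1 k2
  have e : ∀ c', Del a b c' a₂ b₂ e₂ a₃ b₃ e₃ =
      Del a b c a₂ b₂ e₂ a₃ b₃ e₃ + (c' - c) * D a₂ b₂ a₃ b₃ := by
    intro c'
    unfold Del D
    ring
  rw [e c₁] at k1
  rw [e c₂] at k2
  generalize Del a b c a₂ b₂ e₂ a₃ b₃ e₃ = X at k1 k2
  generalize D a₂ b₂ a₃ b₃ = d at k1 k2 d23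
  have hd : 0 < d ^ 2 := by positivity
  have g1 : (c - c₁) * ((c - c₁) * d ^ 2 - 2 * X * d) ≤ 0 := by nlinarith
  have g2 : (c₂ - c) * ((c₂ - c) * d ^ 2 + 2 * X * d) ≤ 0 := by nlinarith
  have f1 : (c - c₁) * d ^ 2 - 2 * X * d ≤ 0 := by
    by_contra hh
    have := mul_pos (sub_pos.mpr h1c) (not_le.mp hh)
    linarith
  have f2 : (c₂ - c) * d ^ 2 + 2 * X * d ≤ 0 := by
    by_contra hh
    have := mul_pos (sub_pos.mpr hc2) (not_le.mp hh)
    linarith
  have f3 : 0 < (c - c₁) * d ^ 2 := mul_pos (sub_pos.mpr h1c) hd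
  have f4 : 0 < (c₂ - c) * d ^ 2 := mul_pos (sub_pos.mpr hc2) hd
  linarith

open Classical in
lemma mem_outer {L : Finset (Set (ℝ × ℝ))} {l : Set (ℝ × ℝ)} :
    l ∈ outer L ↔ l ∈ L ∧ ¬ Inner L l := by
  unfold outer
  rw [Finset.mem_filter]

lemma sides {L : Finset (Set (ℝ × ℝ))} {A : ℝ} (hL : ∀ l ∈ L, IsLine l)
    (hA : IsMaxArea L A) {l₁ l₂ l₃ : Set (ℝ × ℝ)} (h1 : l₁ ∈ L) (h2 : l₂ ∈ L) (h3 : l₃ ∈ L)
    (ht : TriangleArea l₁ l₂ l₃ A) : l₁ ∈ outer L ∧ l₂ ∈ outer L ∧ l₃ ∈ outer L :=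
  ⟨mem_outer.mpr ⟨h1, not_inner hL hA h2 h3 ht⟩,
    mem_outer.mpr ⟨h2, not_inner hL hA h3 h1 ht.rot⟩,
    mem_outer.mpr ⟨h3, not_inner hL hA h1 h2 ht.rot.rot⟩⟩

lemma isMaxArea_outer {L : Finset (Set (ℝ × ℝ))} {A : ℝ} (hL : ∀ l ∈ L, IsLine l)
    (hA : IsMaxArea L A) : IsMaxArea (outer L) A := by
  refine ⟨?_, ?_⟩
  · obtain ⟨l₁, h1, l₂, h2, l₃, h3, ht⟩ := hA.1
    obtain ⟨m1, m2, m3⟩ := sides hL hA h1 h2 h3 ht
    exact ⟨l₁, m1, l₂, m2, l₃, m3, ht⟩
  · intro l₁ h1 l₂ h2 l₃ h3 B hB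
    exact hA.2 l₁ (mem_outer.mp h1).1 l₂ (mem_outer.mp h2).1 l₃ (mem_outer.mp h3).1 B hB

open Classical in
lemma maxTriples_sub {L : Finset (Set (ℝ × ℝ))} {A : ℝ} (hL : ∀ l ∈ L, IsLine l)
    (hA : IsMaxArea L A) : maxTriples L A ⊆ maxTriples (outer L) A := by
  intro t ht
  unfold maxTriples at ht ⊢
  rw [Finset.mem_filter, Finset.mem_powersetCard] at ht ⊢
  obtain ⟨⟨hsub, hcard⟩, l₁, l₂, l₃, hteq, hT⟩ := ht
  refine ⟨⟨?_, hcard⟩, l₁, l₂, l₃, hteq, hT⟩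
  have h1 : l₁ ∈ L := hsub (by rw [hteq]; simp)
  have h2 : l₂ ∈ L := hsub (by rw [hteq]; simp)
  have h3 : l₃ ∈ L := hsub (by rw [hteq]; simp)
  obtain ⟨m1, m2, m3⟩ := sides hL hA h1 h2 h3 hT
  intro l hl
  rw [hteq, Finset.mem_insert, Finset.mem_insert, Finset.mem_singleton] at hl
  rcases hl with rfl | rfl | rfl
  · exact m1
  · exact m2
  · exact m3

lemma three_same {L : Finset (Set (ℝ × ℝ))} {a b x y z : ℝ} (hab : a ≠ 0 ∨ b ≠ 0)
    (hx : line a b x ∈ L) (hy : line a b y ∈ outer L) (hz : line a b z ∈ L)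
    (h1 : x < y) (h2 : y < z) : False :=
  (mem_outer.mp hy).2 ⟨a, b, x, y, z, hab, h1, h2, hx, rfl, hz⟩

lemma ne_zero {v : ℝ × ℝ} (hv : v ≠ 0) : v.1 ≠ 0 ∨ v.2 ≠ 0 := by
  by_contra hh
  rw [not_or, not_not, not_not] at hh
  exact hv (Prod.ext hh.1 hh.2)

/-- at most two outer lines have a given normal vector -/
lemma two_outer {L S : Finset (Set (ℝ × ℝ))} {v : ℝ × ℝ} (hv0 : v ≠ 0)
    (hS : ∀ l ∈ S, l ∈ outer L ∧ ∃ c : ℝ, l = line v.1 v.2 c) : S.card ≤ 2 := by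
  have hv := ne_zero hv0
  by_contra hcon
  rw [not_le, Finset.two_lt_card] at hcon
  obtain ⟨l, hl, m, hm, n, hn, hlm, hln, hmn⟩ := hcon
  obtain ⟨ol, x, el⟩ := hS l hl
  obtain ⟨om, y, em⟩ := hS m hm
  obtain ⟨on, z, en⟩ := hS n hn
  have hlL := (mem_outer.mp ol).1
  have hmL := (mem_outer.mp om).1
  have hnL := (mem_outer.mp on).1
  have nlm : x ≠ y := fun hh => hlm (by rw [el, em, hh])
  have nln : x ≠ z := fun hh => hln (by rw [el, en, hh])
  have nmn : y ≠ z := fun hh => hmn (by rw [em, en, hh])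
  subst el em en
  rcases lt_or_gt_of_ne nlm with u | u <;> rcases lt_or_gt_of_ne nln with w | w <;>
    rcases lt_or_gt_of_ne nmn with s | s
  · exact three_same hv hlL om hnL u s
  · exact three_same hv hlL on hmL w s
  · exact absurd (u.trans s) (not_lt.mpr w.le)
  · exact three_same hv hnL ol hmL w u
  · exact three_same hv hmL ol hnL u w
  · exact absurd (s.trans u) (not_lt.mpr w.le)
  · exact three_same hv hmL on hlL s w
  · exact three_same hv hnL om hlL s u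

lemma card_outer {L : Finset (Set (ℝ × ℝ))} {k : ℕ} (h : AtMostDirections L k) :
    (outer L).card ≤ 2 * k := by
  classical
  obtain ⟨V, hV, hL⟩ := h
  choose! f hf1 hf2 g hg using hL
  have hmaps : ∀ l ∈ outer L, f l ∈ V := fun l hl => hf1 l (mem_outer.mp hl).1
  have hfib : ∀ v ∈ V, ((outer L).filter (fun l => f l = v)).card ≤ 2 := by
    intro v _
    rcases Finset.eq_empty_or_nonempty ((outer L).filter (fun l => f l = v)) with h0 | ⟨l, hl⟩
    · rw [h0]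
      simp
    · rw [Finset.mem_filter] at hl
      refine two_outer (L := L) (v := v) ?_ ?_
      · rw [← hl.2]
        exact hf2 l (mem_outer.mp hl.1).1
      · intro m hm
        rw [Finset.mem_filter] at hm
        refine ⟨hm.1, g m, ?_⟩
        have := hg m (mem_outer.mp hm.1).1
        rwa [hm.2] at this
  exact (Finset.card_le_mul_card_image_of_maps_to hmaps 2 hfib).trans
    (Nat.mul_le_mul_left 2 hV)

theorem directions_bound {L : Finset (Set (ℝ × ℝ))} {A : ℝ} {k : ℕ}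
    (hk : AtMostDirections L k) (hA : IsMaxArea L A) :
    3 * (maxTriples L A).card ≤ 4 * k * (k - 1) := by
  have hL : ∀ l ∈ L, IsLine l := by
    obtain ⟨V, -, hV⟩ := hk
    intro l hl
    obtain ⟨v, -, hv, c, rfl⟩ := hV l hl
    exact ⟨v.1, v.2, c, ne_zero hv, rfl⟩
  have g1 := three_mul_le (outer L) (fun l hl => hL l (mem_outer.mp hl).1) A
    (isMaxArea_outer hL hA)
  have g2 := Finset.card_le_card (maxTriples_sub hL hA)
  have h2 := card_outer hk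
  have h3 : (outer L).card * ((outer L).card - 2) ≤ 2 * k * (2 * k - 2) :=
    Nat.mul_le_mul h2 (Nat.sub_le_sub_right h2 2)
  have h4 : 2 * k * (2 * k - 2) = 4 * k * (k - 1) := by
    rcases k with _ | k
    · rfl
    · have e1 : 2 * (k + 1) - 2 = 2 * k := by omega
      have e2 : k + 1 - 1 = k := by omega
      rw [e1, e2]
      ring
  omega

/-! ### pencils -/

lemma same_sign {a b : ℝ} (h : 0 < a * b) : |a + b| = |a| + |b| := by
  rcases pos_and_pos_or_neg_and_neg_of_mul_pos h with ⟨h1, h2⟩ | ⟨h1, h2⟩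
  · rw [abs_of_pos h1, abs_of_pos h2, abs_of_pos (add_pos h1 h2)]
  · rw [abs_of_neg h1, abs_of_neg h2, abs_of_neg (add_neg h1 h2)]
    ring

/-- strict Cauchy-Schwarz -/
lemma cs {K p₁ p₄ q₁ q₄ u₁ u₄ : ℝ} (hK : 0 < K) (hp1 : 0 < p₁) (hp4 : 0 < p₄) (hq1 : 0 < q₁)
    (hq4 : 0 < q₄) (h1 : u₁ ^ 2 ≤ K * (p₁ * q₁)) (h4 : u₄ ^ 2 ≤ K * (p₄ * q₄))
    (hne : p₁ * q₄ ≠ p₄ * q₁) : (u₁ + u₄) ^ 2 < K * ((p₁ + p₄) * (q₁ + q₄)) := by
  have hx : (u₁ * u₄) ^ 2 ≤ K ^ 2 * (p₁ * q₁ * (p₄ * q₄)) := by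
    have := mul_le_mul h1 h4 (sq_nonneg u₄) (by positivity)
    calc (u₁ * u₄) ^ 2 = u₁ ^ 2 * u₄ ^ 2 := by ring
      _ ≤ K * (p₁ * q₁) * (K * (p₄ * q₄)) := this
      _ = K ^ 2 * (p₁ * q₁ * (p₄ * q₄)) := by ring
  have hy : K ^ 2 * (p₁ * q₁ * (p₄ * q₄)) < (K * (p₁ * q₄ + p₄ * q₁) / 2) ^ 2 := by
    have h5 : 0 < (p₁ * q₄ - p₄ * q₁) ^ 2 := by
      have := sub_ne_zero.mpr hne
      positivity
    have h6 : 0 < K ^ 2 * (p₁ * q₄ - p₄ * q₁) ^ 2 := by positivity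
    nlinarith
  have hz : |u₁ * u₄| < K * (p₁ * q₄ + p₄ * q₁) / 2 :=
    abs_lt_of_sq_lt_sq (hx.trans_lt hy) (by positivity)
  have hw := le_abs_self (u₁ * u₄)
  nlinarith

lemma core {K U U₁ U₄ P P₁ P₄ Q Q₁ Q₄ R lam mu del : ℝ} (hK : 0 < K)
    (e1 : del * P = lam * P₁ + mu * P₄) (e2 : del * Q = lam * Q₁ + mu * Q₄)
    (e3 : del * U = lam * U₁ + mu * U₄) (e4 : P₁ * Q₄ - P₄ * Q₁ = del * R)
    (e5 : P * Q₄ = lam * R + Q * P₄) (e6 : P * Q₁ = - mu * R + Q * P₁)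
    (h0 : U ^ 2 = K * |P * Q|) (h1 : P₁ ≠ 0 → Q₁ ≠ 0 → U₁ ^ 2 ≤ K * |P₁ * Q₁|)
    (h4 : P₄ ≠ 0 → Q₄ ≠ 0 → U₄ ^ 2 ≤ K * |P₄ * Q₄|)
    (s1 : 0 < mu * P₁ * P) (s4 : 0 < lam * Q₄ * Q) (s : P * Q * R < 0) : False := by
  have hP : P ≠ 0 := by rintro rfl; simp at s1
  have hQ : Q ≠ 0 := by rintro rfl; simp at s4
  have hR : R ≠ 0 := by rintro rfl; simp at s
  have hlam : lam ≠ 0 := by rintro rfl; simp at s4
  have hmu : mu ≠ 0 := by rintro rfl; simp at s1
  have hP1 : P₁ ≠ 0 := by rintro rfl; simp at s1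
  have hQ4 : Q₄ ≠ 0 := by rintro rfl; simp at s4
  have a1 : 0 < (lam * P * P₄) * Q ^ 2 := by
    have t1 : (lam * P * P₄) * Q ^ 2 = P ^ 2 * (lam * Q₄ * Q) + lam ^ 2 * (-(P * Q * R)) := by
      linear_combination (-lam * P * Q) * e5
    rw [t1]
    have : 0 < -(P * Q * R) := by linarith
    positivity
  have a2 : 0 < (mu * Q * Q₁) * P ^ 2 := by
    have t1 : (mu * Q * Q₁) * P ^ 2 = Q ^ 2 * (mu * P₁ * P) + mu ^ 2 * (-(P * Q * R)) := by
      linear_combination (mu * P * Q) * e6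
    rw [t1]
    have : 0 < -(P * Q * R) := by linarith
    positivity
  have b1 : 0 < lam * P * P₄ := (pos_iff_pos_of_mul_pos a1).mpr (by positivity)
  have b2 : 0 < mu * Q * Q₁ := (pos_iff_pos_of_mul_pos a2).mpr (by positivity)
  have hP4 : P₄ ≠ 0 := by rintro rfl; simp at b1
  have hQ1 : Q₁ ≠ 0 := by rintro rfl; simp at b2
  have c1 : 0 < (lam * P₁) * (mu * P₄) := by
    have t1 := mul_pos s1 b1
    have t2 : mu * P₁ * P * (lam * P * P₄) = (lam * P₁) * (mu * P₄) * P ^ 2 := by ring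
    rw [t2] at t1
    exact (pos_iff_pos_of_mul_pos t1).mpr (by positivity)
  have c2 : 0 < (lam * Q₁) * (mu * Q₄) := by
    have t1 := mul_pos s4 b2
    have t2 : lam * Q₄ * Q * (mu * Q * Q₁) = (lam * Q₁) * (mu * Q₄) * Q ^ 2 := by ring
    rw [t2] at t1
    exact (pos_iff_pos_of_mul_pos t1).mpr (by positivity)
  have hdel : del ≠ 0 := by
    rintro rfl
    rw [zero_mul] at e1
    have : mu * P₄ = - (lam * P₁) := by linarith
    rw [this] at c1
    nlinarith [sq_nonneg (lam * P₁)]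
  have f1 : (lam * U₁) ^ 2 ≤ K * (|lam * P₁| * |lam * Q₁|) := by
    rw [← abs_mul]
    have t1 : lam * P₁ * (lam * Q₁) = lam ^ 2 * (P₁ * Q₁) := by ring
    rw [t1, abs_mul, abs_of_nonneg (sq_nonneg lam)]
    have t2 := mul_le_mul_of_nonneg_left (h1 hP1 hQ1) (sq_nonneg lam)
    nlinarith
  have f4 : (mu * U₄) ^ 2 ≤ K * (|mu * P₄| * |mu * Q₄|) := by
    rw [← abs_mul]
    have t1 : mu * P₄ * (mu * Q₄) = mu ^ 2 * (P₄ * Q₄) := by ring
    rw [t1, abs_mul, abs_of_nonneg (sq_nonneg mu)]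
    have t2 := mul_le_mul_of_nonneg_left (h4 hP4 hQ4) (sq_nonneg mu)
    nlinarith
  have hne : |lam * P₁| * |mu * Q₄| ≠ |mu * P₄| * |lam * Q₁| := by
    rw [← abs_mul, ← abs_mul]
    intro hh
    rcases abs_eq_abs.mp hh with g | g
    · have t1 : lam * mu * (del * R) = 0 := by
        rw [← e4]
        linear_combination g
      have t2 : lam * mu * (del * R) ≠ 0 := by positivity
      exact t2 t1
    · have t1 : 0 < (lam * P₁) * (mu * P₄) * ((lam * Q₁) * (mu * Q₄)) := mul_pos c1 c2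
      have t2 : (lam * P₁) * (mu * P₄) * ((lam * Q₁) * (mu * Q₄))
          = (lam * P₁ * (mu * Q₄)) * (mu * P₄ * (lam * Q₁)) := by ring
      rw [t2, g] at t1
      nlinarith [sq_nonneg (mu * P₄ * (lam * Q₁))]
  have fin := cs hK (abs_pos.mpr (left_ne_zero_of_mul c1.ne'))
    (abs_pos.mpr (right_ne_zero_of_mul c1.ne')) (abs_pos.mpr (left_ne_zero_of_mul c2.ne'))
    (abs_pos.mpr (right_ne_zero_of_mul c2.ne')) f1 f4 hne
  rw [← same_sign c1, ← same_sign c2, ← e1, ← e2, ← e3, ← abs_mul] at fin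
  have t3 : del * P * (del * Q) = del ^ 2 * (P * Q) := by ring
  rw [t3, abs_mul, abs_of_nonneg (sq_nonneg del)] at fin
  have t4 : (del * U) ^ 2 = K * (del ^ 2 * |P * Q|) := by
    rw [mul_pow, h0]
    ring
  linarith

/-- the representation of the lines of `L` by equations -/
def Rep (L : Finset (Set (ℝ × ℝ))) (α β γ : Set (ℝ × ℝ) → ℝ) : Prop :=
  ∀ l ∈ L, (α l ≠ 0 ∨ β l ≠ 0) ∧ l = line (α l) (β l) (γ l)

/-- determinant of the normals -/
def DD (α β : Set (ℝ × ℝ) → ℝ) (l m : Set (ℝ × ℝ)) : ℝ := D (α l) (β l) (α m) (β m)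

/-- `x` is before `x'` on the circle of directions cut at the direction of `y` -/
def Lt (α β : Set (ℝ × ℝ) → ℝ) (y x x' : Set (ℝ × ℝ)) : Prop :=
  0 < DD α β x x' * DD α β x y * DD α β x' y

lemma key {L : Finset (Set (ℝ × ℝ))} {A : ℝ} {α β γ : Set (ℝ × ℝ) → ℝ} (hrep : Rep L α β γ)
    (hA : IsMaxArea L A) {x y z x₁ x₄ : Set (ℝ × ℝ)} {p : ℝ × ℝ} (hx : x ∈ L) (hy : y ∈ L)
    (hz : z ∈ L) (h1 : x₁ ∈ L) (h4 : x₄ ∈ L) (px : p ∈ x) (p1 : p ∈ x₁) (p4 : p ∈ x₄)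
    (ht : TriangleArea x y z A) (s1 : Lt α β y x₁ x) (s4 : Lt α β z x x₄)
    (s : DD α β x y * DD α β x z * DD α β y z < 0) : False := by
  obtain ⟨nx, ex⟩ := hrep x hx
  obtain ⟨ny, ey⟩ := hrep y hy
  obtain ⟨nz, ez⟩ := hrep z hz
  obtain ⟨n1, f1⟩ := hrep x₁ h1
  obtain ⟨n4, f4⟩ := hrep x₄ h4
  have hA0 := area_nonneg ht
  have ht' : TriangleArea (ln (α x) (β x) (γ x)) (ln (α y) (β y) (γ y))
      (ln (α z) (β z) (γ z)) A := by
    have : TriangleArea (line (α x) (β x) (γ x)) (line (α y) (β y) (γ y))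
      (line (α z) (β z) (γ z)) A := by rwa [← ex, ← ey, ← ez]
    exact this
  obtain ⟨d12, d13, d23, hDel, hArea⟩ := area_of ny nz ht'
  have hx' : line (α x) (β x) (γ x) ∈ L := by rwa [← ex]
  have hy' : line (α y) (β y) (γ y) ∈ L := by rwa [← ey]
  have hz' : line (α z) (β z) (γ z) ∈ L := by rwa [← ez]
  have h1' : line (α x₁) (β x₁) (γ x₁) ∈ L := by rwa [← f1]
  have h4' : line (α x₄) (β x₄) (γ x₄) ∈ L := by rwa [← f4]
  have gx : α x * p.1 + β x * p.2 = γ x := by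
    rw [ex] at px
    exact px
  have g1 : α x₁ * p.1 + β x₁ * p.2 = γ x₁ := by
    rw [f1] at p1
    exact p1
  have g4 : α x₄ * p.1 + β x₄ * p.2 = γ x₄ := by
    rw [f4] at p4
    exact p4
  have hApos : 0 < A := by
    rcases hA0.lt_or_eq with u | u
    · exact u
    · exfalso
      rw [← u, zero_mul] at hArea
      exact hDel (pow_eq_zero_iff (two_ne_zero)|>.mp hArea.symm)
  have split : ∀ u v w : ℝ, A * (2 * |u * v * w|) = A * (2 * |w|) * |u * v| := by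
    intro u v w
    rw [abs_mul (u * v) w]
    ring
  refine core (K := A * (2 * |DD α β y z|))
    (U := Del (α x) (β x) (γ x) (α y) (β y) (γ y) (α z) (β z) (γ z))
    (U₁ := Del (α x₁) (β x₁) (γ x₁) (α y) (β y) (γ y) (α z) (β z) (γ z))
    (U₄ := Del (α x₄) (β x₄) (γ x₄) (α y) (β y) (γ y) (α z) (β z) (γ z))
    (P := DD α β x y) (P₁ := DD α β x₁ y) (P₄ := DD α β x₄ y)
    (Q := DD α β x z) (Q₁ := DD α β x₁ z) (Q₄ := DD α β x₄ z) (R := DD α β y z)
    (lam := DD α β x x₄) (mu := DD α β x₁ x) (del := DD α β x₁ x₄)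
    ?_ ?_ ?_ ?_ ?_ ?_ ?_ ?_ ?_ ?_ s1 ?_ s
  · have : DD α β y z ≠ 0 := d23
    positivity
  · unfold DD D
    ring
  · unfold DD D
    ring
  · unfold DD D Del
    rw [← gx, ← g1, ← g4]
    ring
  · unfold DD D
    ring
  · unfold DD D
    ring
  · unfold DD D
    ring
  · rw [← hArea]
    exact split _ _ _
  · intro u v
    have := del_le hA h1' hy' hz' hA0 u v d23
    rwa [split] at this
  · intro u v
    have := del_le hA h4' hy' hz' hA0 u v d23
    rwa [split] at this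
  · unfold Lt at s4
    have : DD α β x x₄ * DD α β x₄ z * DD α β x z
      = DD α β x x₄ * DD α β x z * DD α β x₄ z := by ring
    rwa [this]

/-- two different lines of `L` through a point are not parallel -/
lemma DD_ne {L : Finset (Set (ℝ × ℝ))} {α β γ : Set (ℝ × ℝ) → ℝ} (hrep : Rep L α β γ)
    {x x' : Set (ℝ × ℝ)} {p : ℝ × ℝ} (hx : x ∈ L) (hx' : x' ∈ L) (px : p ∈ x) (px' : p ∈ x')
    (hne : x ≠ x') : DD α β x x' ≠ 0 := by
  intro h0
  apply hne
  obtain ⟨nx, ex⟩ := hrep x hx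
  obtain ⟨nx', ex'⟩ := hrep x' hx'
  rw [ex] at px
  rw [ex'] at px'
  have g1 : α x * p.1 + β x * p.2 = γ x := px
  have g2 : α x' * p.1 + β x' * p.2 = γ x' := px'
  unfold DD D at h0
  rw [ex, ex']
  ext q
  show α x * q.1 + β x * q.2 = γ x ↔ α x' * q.1 + β x' * q.2 = γ x'
  rw [← g1, ← g2]
  constructor
  · intro h
    have t1 : α x * (α x' * (q.1 - p.1) + β x' * (q.2 - p.2)) = 0 := by
      linear_combination α x' * h + (q.2 - p.2) * h0
    have t2 : β x * (α x' * (q.1 - p.1) + β x' * (q.2 - p.2)) = 0 := by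
      linear_combination β x' * h - (q.1 - p.1) * h0
    rcases nx with u | u
    · have := (mul_eq_zero.mp t1).resolve_left u
      linarith
    · have := (mul_eq_zero.mp t2).resolve_left u
      linarith
  · intro h
    have t1 : α x' * (α x * (q.1 - p.1) + β x * (q.2 - p.2)) = 0 := by
      linear_combination α x * h - (q.2 - p.2) * h0
    have t2 : β x' * (α x * (q.1 - p.1) + β x * (q.2 - p.2)) = 0 := by
      linear_combination β x * h + (q.1 - p.1) * h0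
    rcases nx' with u | u
    · have := (mul_eq_zero.mp t1).resolve_left u
      linarith
    · have := (mul_eq_zero.mp t2).resolve_left u
      linarith

open Classical in
/-- the line with normal vector `v` and smallest right side -/
noncomputable def Bot (L : Finset (Set (ℝ × ℝ))) (v : ℝ × ℝ) : Finset (Set (ℝ × ℝ)) :=
  L.filter (fun x => ∃ c : ℝ, x = line v.1 v.2 c ∧ ∀ c' : ℝ, line v.1 v.2 c' ∈ L → c ≤ c')

open Classical in
/-- the line with normal vector `v` and largest right side -/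
noncomputable def Top (L : Finset (Set (ℝ × ℝ))) (v : ℝ × ℝ) : Finset (Set (ℝ × ℝ)) :=
  L.filter (fun x => ∃ c : ℝ, x = line v.1 v.2 c ∧ ∀ c' : ℝ, line v.1 v.2 c' ∈ L → c' ≤ c)

open Classical in
lemma card_Bot (L : Finset (Set (ℝ × ℝ))) (v : ℝ × ℝ) : (Bot L v).card ≤ 1 := by
  unfold Bot
  rw [Finset.card_le_one]
  intro a ha b hb
  rw [Finset.mem_filter] at ha hb
  obtain ⟨haL, c, rfl, hc⟩ := ha
  obtain ⟨hbL, d, rfl, hd⟩ := hb
  rw [le_antisymm (hc d hbL) (hd c haL)]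

open Classical in
lemma card_Top (L : Finset (Set (ℝ × ℝ))) (v : ℝ × ℝ) : (Top L v).card ≤ 1 := by
  unfold Top
  rw [Finset.card_le_one]
  intro a ha b hb
  rw [Finset.mem_filter] at ha hb
  obtain ⟨haL, c, rfl, hc⟩ := ha
  obtain ⟨hbL, d, rfl, hd⟩ := hb
  rw [le_antisymm (hd c haL) (hc d hbL)]

open Classical in
lemma bot_or_top {L : Finset (Set (ℝ × ℝ))} {v : ℝ × ℝ} (hv : v ≠ 0) {c : ℝ}
    (h : line v.1 v.2 c ∈ outer L) : line v.1 v.2 c ∈ Bot L v ∨ line v.1 v.2 c ∈ Top L v := by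
  by_contra hcon
  rw [not_or] at hcon
  obtain ⟨h1, h2⟩ := hcon
  have hm := mem_outer.mp h
  have t1 : ∃ c₁ : ℝ, line v.1 v.2 c₁ ∈ L ∧ c₁ < c := by
    by_contra hno
    apply h1
    unfold Bot
    rw [Finset.mem_filter]
    refine ⟨hm.1, c, rfl, ?_⟩
    intro c' hc'
    by_contra hlt
    exact hno ⟨c', hc', not_le.mp hlt⟩
  have t2 : ∃ c₂ : ℝ, line v.1 v.2 c₂ ∈ L ∧ c < c₂ := by
    by_contra hno
    apply h2
    unfold Top
    rw [Finset.mem_filter]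
    refine ⟨hm.1, c, rfl, ?_⟩
    intro c' hc'
    by_contra hlt
    exact hno ⟨c', hc', not_le.mp hlt⟩
  obtain ⟨c₁, g1, g2⟩ := t1
  obtain ⟨c₂, g3, g4⟩ := t2
  exact hm.2 ⟨v.1, v.2, c₁, c, c₂, ne_zero hv, g2, g4, g1, rfl, g3⟩

open Classical in
/-- the first lines of the pencils -/
noncomputable def Nmin (L : Finset (Set (ℝ × ℝ))) (α β : Set (ℝ × ℝ) → ℝ)
    (P V : Finset (ℝ × ℝ)) (y : Set (ℝ × ℝ)) : Finset (Set (ℝ × ℝ)) :=
  P.biUnion (fun p => L.filter (fun x => p ∈ x ∧ DD α β x y ≠ 0 ∧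
      ∀ x₁ ∈ L, p ∈ x₁ → ¬ Lt α β y x₁ x)) ∪ V.biUnion (fun v => Bot L v)

open Classical in
/-- the last lines of the pencils -/
noncomputable def Nmax (L : Finset (Set (ℝ × ℝ))) (α β : Set (ℝ × ℝ) → ℝ)
    (P V : Finset (ℝ × ℝ)) (y : Set (ℝ × ℝ)) : Finset (Set (ℝ × ℝ)) :=
  P.biUnion (fun p => L.filter (fun x => p ∈ x ∧ DD α β x y ≠ 0 ∧
      ∀ x₄ ∈ L, p ∈ x₄ → ¬ Lt α β y x x₄)) ∪ V.biUnion (fun v => Top L v)

open Classical in
lemma Nmin_sub (L : Finset (Set (ℝ × ℝ))) (α β : Set (ℝ × ℝ) → ℝ)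
    (P V : Finset (ℝ × ℝ)) (y : Set (ℝ × ℝ)) : Nmin L α β P V y ⊆ L := by
  unfold Nmin Bot
  intro x hx
  rw [Finset.mem_union, Finset.mem_biUnion, Finset.mem_biUnion] at hx
  rcases hx with ⟨p, -, hx⟩ | ⟨v, -, hx⟩
  · exact (Finset.mem_filter.mp hx).1
  · exact (Finset.mem_filter.mp hx).1

open Classical in
lemma Nmax_sub (L : Finset (Set (ℝ × ℝ))) (α β : Set (ℝ × ℝ) → ℝ)
    (P V : Finset (ℝ × ℝ)) (y : Set (ℝ × ℝ)) : Nmax L α β P V y ⊆ L := by
  unfold Nmax Top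
  intro x hx
  rw [Finset.mem_union, Finset.mem_biUnion, Finset.mem_biUnion] at hx
  rcases hx with ⟨p, -, hx⟩ | ⟨v, -, hx⟩
  · exact (Finset.mem_filter.mp hx).1
  · exact (Finset.mem_filter.mp hx).1

lemma lt_or_lt {L : Finset (Set (ℝ × ℝ))} {α β γ : Set (ℝ × ℝ) → ℝ} (hrep : Rep L α β γ)
    {x x' y : Set (ℝ × ℝ)} {p : ℝ × ℝ} (hx : x ∈ L) (hx' : x' ∈ L) (px : p ∈ x) (px' : p ∈ x')
    (hne : x ≠ x') (h : DD α β x y ≠ 0) (h' : DD α β x' y ≠ 0) :
    Lt α β y x x' ∨ Lt α β y x' x := by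
  have h0 := DD_ne hrep hx hx' px px' hne
  unfold Lt
  have e : DD α β x' x * DD α β x' y * DD α β x y
    = - (DD α β x x' * DD α β x y * DD α β x' y) := by
    unfold DD D
    ring
  rw [e]
  have : DD α β x x' * DD α β x y * DD α β x' y ≠ 0 := mul_ne_zero (mul_ne_zero h0 h) h'
  rcases lt_or_gt_of_ne this with u | u
  · right
    linarith
  · left
    exact u

open Classical in
lemma card_Nmin {L : Finset (Set (ℝ × ℝ))} {α β γ : Set (ℝ × ℝ) → ℝ} (hrep : Rep L α β γ)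
    (P V : Finset (ℝ × ℝ)) (y : Set (ℝ × ℝ)) :
    (Nmin L α β P V y).card ≤ P.card + V.card := by
  unfold Nmin
  refine (Finset.card_union_le _ _).trans (Nat.add_le_add ?_ ?_)
  · have := Finset.card_biUnion_le_card_mul P (fun p => L.filter (fun x => p ∈ x ∧
      DD α β x y ≠ 0 ∧ ∀ x₁ ∈ L, p ∈ x₁ → ¬ Lt α β y x₁ x)) 1 ?_
    · simpa using this
    · intro p _
      rw [Finset.card_le_one]
      intro a ha b hb
      rw [Finset.mem_filter] at ha hb
      by_contra hne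
      rcases lt_or_lt hrep ha.1 hb.1 ha.2.1 hb.2.1 hne ha.2.2.1 hb.2.2.1 with u | u
      · exact hb.2.2.2 a ha.1 ha.2.1 u
      · exact ha.2.2.2 b hb.1 hb.2.1 u
  · have := Finset.card_biUnion_le_card_mul V (fun v => Bot L v) 1 (fun v _ => card_Bot L v)
    simpa using this

open Classical in
lemma card_Nmax {L : Finset (Set (ℝ × ℝ))} {α β γ : Set (ℝ × ℝ) → ℝ} (hrep : Rep L α β γ)
    (P V : Finset (ℝ × ℝ)) (y : Set (ℝ × ℝ)) :
    (Nmax L α β P V y).card ≤ P.card + V.card := by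
  unfold Nmax
  refine (Finset.card_union_le _ _).trans (Nat.add_le_add ?_ ?_)
  · have := Finset.card_biUnion_le_card_mul P (fun p => L.filter (fun x => p ∈ x ∧
      DD α β x y ≠ 0 ∧ ∀ x₄ ∈ L, p ∈ x₄ → ¬ Lt α β y x x₄)) 1 ?_
    · simpa using this
    · intro p _
      rw [Finset.card_le_one]
      intro a ha b hb
      rw [Finset.mem_filter] at ha hb
      by_contra hne
      rcases lt_or_lt hrep ha.1 hb.1 ha.2.1 hb.2.1 hne ha.2.2.1 hb.2.2.1 with u | u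
      · exact ha.2.2.2 b hb.1 hb.2.1 u
      · exact hb.2.2.2 a ha.1 ha.2.1 u
  · have := Finset.card_biUnion_le_card_mul V (fun v => Top L v) 1 (fun v _ => card_Top L v)
    simpa using this

open Classical in
/-- every side of a triangle of maximum area is near to one of the other two -/
lemma near {L : Finset (Set (ℝ × ℝ))} {A : ℝ} {α β γ : Set (ℝ × ℝ) → ℝ} (hrep : Rep L α β γ)
    (hL : ∀ l ∈ L, IsLine l) (hA : IsMaxArea L A) {P V : Finset (ℝ × ℝ)}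
    (hc : CoveredBy L P V) {x y z : Set (ℝ × ℝ)} (hx : x ∈ L) (hy : y ∈ L) (hz : z ∈ L)
    (ht : TriangleArea x y z A) (s : DD α β x y * DD α β x z * DD α β y z < 0) :
    x ∈ Nmin L α β P V y ∨ x ∈ Nmax L α β P V z := by
  rcases hc x hx with ⟨p, hp, px⟩ | ⟨v, hv, hv0, c, hvc⟩
  · have hxy : DD α β x y ≠ 0 := by
      intro h
      rw [h] at s
      simp at s
    have hxz : DD α β x z ≠ 0 := by
      intro h
      rw [h] at s
      simp at s
    by_contra hcon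
    rw [not_or] at hcon
    obtain ⟨c1, c2⟩ := hcon
    have t1 : ∃ x₁ ∈ L, p ∈ x₁ ∧ Lt α β y x₁ x := by
      by_contra hno
      apply c1
      unfold Nmin
      rw [Finset.mem_union, Finset.mem_biUnion]
      left
      refine ⟨p, hp, ?_⟩
      rw [Finset.mem_filter]
      refine ⟨hx, px, hxy, ?_⟩
      intro x₁ h1 h2 h3
      exact hno ⟨x₁, h1, h2, h3⟩
    have t2 : ∃ x₄ ∈ L, p ∈ x₄ ∧ Lt α β z x x₄ := by
      by_contra hno
      apply c2
      unfold Nmax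
      rw [Finset.mem_union, Finset.mem_biUnion]
      left
      refine ⟨p, hp, ?_⟩
      rw [Finset.mem_filter]
      refine ⟨hx, px, hxz, ?_⟩
      intro x₄ h1 h2 h3
      exact hno ⟨x₄, h1, h2, h3⟩
    obtain ⟨x₁, h1, p1, l1⟩ := t1
    obtain ⟨x₄, h4, p4, l4⟩ := t2
    exact key hrep hA hx hy hz h1 h4 px p1 p4 ht l1 l4 s
  · have ho := (sides hL hA hx hy hz ht).1
    rw [hvc] at ho
    unfold Nmin Nmax
    rw [Finset.mem_union, Finset.mem_union, Finset.mem_biUnion, Finset.mem_biUnion]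
    rcases bot_or_top hv0 ho with u | u
    · left
      right
      refine ⟨v, hv, ?_⟩
      rwa [hvc]
    · right
      right
      rw [Finset.mem_biUnion]
      refine ⟨v, hv, ?_⟩
      rwa [hvc]

open Classical in
/-- the link bound for a part of the arrangement -/
lemma link_sub {L : Finset (Set (ℝ × ℝ))} (hL : ∀ l ∈ L, IsLine l) {A : ℝ}
    (hA : IsMaxArea L A) {c : Set (ℝ × ℝ)} (hc : c ∈ L) {W : Finset (Set (ℝ × ℝ))}
    (hW : W ⊆ L) :
    ((maxTriples L A).filter (fun T => c ∈ T ∧ T ⊆ insert c W)).card ≤ W.card - 1 := by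
  rcases Finset.eq_empty_or_nonempty
    ((maxTriples L A).filter (fun T => c ∈ T ∧ T ⊆ insert c W)) with h0 | ⟨T, hT⟩
  · rw [h0]
    simp
  have hsub : insert c W ⊆ L := Finset.insert_subset hc hW
  have key2 : (maxTriples L A).filter (fun T => c ∈ T ∧ T ⊆ insert c W)
      ⊆ (maxTriples (insert c W) A).filter (fun T => c ∈ T) := by
    intro S hS
    rw [Finset.mem_filter] at hS ⊢
    refine ⟨?_, hS.2.1⟩
    have h1 := hS.1
    unfold maxTriples at h1 ⊢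
    rw [Finset.mem_filter, Finset.mem_powersetCard] at h1 ⊢
    exact ⟨⟨hS.2.2, h1.1.2⟩, h1.2⟩
  have hA' : IsMaxArea (insert c W) A := by
    refine ⟨?_, fun l₁ h1 l₂ h2 l₃ h3 B hB =>
      hA.2 l₁ (hsub h1) l₂ (hsub h2) l₃ (hsub h3) B hB⟩
    rw [Finset.mem_filter] at hT
    have h1 := hT.1
    unfold maxTriples at h1
    rw [Finset.mem_filter, Finset.mem_powersetCard] at h1
    obtain ⟨-, l₁, l₂, l₃, hteq, hTr⟩ := h1
    refine ⟨l₁, hT.2.2 (by rw [hteq]; simp), l₂, hT.2.2 (by rw [hteq]; simp), l₃,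
      hT.2.2 (by rw [hteq]; simp), hTr⟩
  have h1 := link_le (insert c W) (fun l hl => hL l (hsub hl)) A hA' c
    (Finset.mem_insert_self c W)
  have h2 := Finset.card_le_card key2
  have h3 := Finset.card_insert_le c W
  omega

open Classical in
/-- the triples with a line from which the other two are found -/
noncomputable def C1 (L : Finset (Set (ℝ × ℝ))) (A : ℝ)
    (F G : Set (ℝ × ℝ) → Finset (Set (ℝ × ℝ))) : Finset (Finset (Set (ℝ × ℝ))) :=
  (maxTriples L A).filter (fun T => ∃ r ∈ T, T ⊆ insert r (F r ∪ G r))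

open Classical in
/-- the cyclic triples -/
noncomputable def C2 (L : Finset (Set (ℝ × ℝ))) (A : ℝ)
    (F : Set (ℝ × ℝ) → Finset (Set (ℝ × ℝ))) : Finset (Finset (Set (ℝ × ℝ))) :=
  (maxTriples L A).filter (fun T => ∀ r ∈ T, T ⊆ insert r (F r ∪ L.filter (fun s => r ∈ F s)))

open Classical in
lemma sub_L {L : Finset (Set (ℝ × ℝ))} {A : ℝ} {T : Finset (Set (ℝ × ℝ))}
    (hT : T ∈ maxTriples L A) : T ⊆ L ∧ T.card = 3 := by
  unfold maxTriples at hT
  rw [Finset.mem_filter, Finset.mem_powersetCard] at hT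
  exact hT.1

open Classical in
lemma card_C1 {L : Finset (Set (ℝ × ℝ))} (hL : ∀ l ∈ L, IsLine l) {A : ℝ}
    (hA : IsMaxArea L A) {F G : Set (ℝ × ℝ) → Finset (Set (ℝ × ℝ))} {κ : ℕ}
    (hF : ∀ r, F r ⊆ L) (hG : ∀ r, G r ⊆ L) (cF : ∀ r, (F r).card ≤ κ)
    (cG : ∀ r, (G r).card ≤ κ) : (C1 L A F G).card ≤ L.card * (2 * κ - 1) := by
  have hsub : C1 L A F G ⊆ L.biUnion (fun r =>
      (maxTriples L A).filter (fun T => r ∈ T ∧ T ⊆ insert r (F r ∪ G r))) := by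
    intro T hT
    unfold C1 at hT
    rw [Finset.mem_filter] at hT
    obtain ⟨hT, r, hr, hr2⟩ := hT
    rw [Finset.mem_biUnion]
    refine ⟨r, (sub_L hT).1 hr, ?_⟩
    rw [Finset.mem_filter]
    exact ⟨hT, hr, hr2⟩
  refine (Finset.card_le_card hsub).trans
    (Finset.card_biUnion_le_card_mul L _ _ (fun r hr => ?_))
  refine (link_sub hL hA hr (Finset.union_subset (hF r) (hG r))).trans ?_
  have h1 := Finset.card_union_le (F r) (G r)
  have h2 := cF r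
  have h3 := cG r
  omega

open Classical in
lemma card_C2 {L : Finset (Set (ℝ × ℝ))} (hL : ∀ l ∈ L, IsLine l) {A : ℝ}
    (hA : IsMaxArea L A) {F : Set (ℝ × ℝ) → Finset (Set (ℝ × ℝ))} {κ : ℕ} (hκ : 1 ≤ κ)
    (hF : ∀ r, F r ⊆ L) (cF : ∀ r, (F r).card ≤ κ) :
    3 * (C2 L A F).card ≤ L.card * (2 * κ - 1) := by
  have h1 : ∑ c ∈ L, ((C2 L A F).filter (fun t => c ∈ t)).card
      = ∑ t ∈ C2 L A F, (L.filter (fun c => c ∈ t)).card :=
    Finset.sum_card_bipartiteAbove_eq_sum_card_bipartiteBelow (fun c t => c ∈ t)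
  have h2 : ∀ t ∈ C2 L A F, (L.filter (fun c => c ∈ t)).card = 3 := by
    intro t ht
    unfold C2 at ht
    rw [Finset.mem_filter] at ht
    have h3 := sub_L ht.1
    have : L.filter (fun c => c ∈ t) = t := by
      ext c
      rw [Finset.mem_filter]
      exact ⟨fun h => h.2, fun h => ⟨h3.1 h, h⟩⟩
    rw [this]
    exact h3.2
  rw [Finset.sum_congr rfl h2, Finset.sum_const, smul_eq_mul] at h1
  have h3 : ∀ c ∈ L, ((C2 L A F).filter (fun t => c ∈ t)).card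
      ≤ (κ - 1) + (L.filter (fun s => c ∈ F s)).card := by
    intro c hc
    have g1 : (C2 L A F).filter (fun t => c ∈ t) ⊆ (maxTriples L A).filter
        (fun T => c ∈ T ∧ T ⊆ insert c (F c ∪ L.filter (fun s => c ∈ F s))) := by
      intro t ht
      unfold C2 at ht
      rw [Finset.mem_filter, Finset.mem_filter] at ht
      rw [Finset.mem_filter]
      exact ⟨ht.1.1, ht.2, ht.1.2 c ht.2⟩
    have g2 := Finset.card_le_card g1
    have g3 := link_sub hL hA hc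
      (Finset.union_subset (hF c) (Finset.filter_subset (fun s => c ∈ F s) L))
    have g4 := Finset.card_union_le (F c) (L.filter (fun s => c ∈ F s))
    have g5 := cF c
    omega
  have h4 := Finset.sum_le_sum h3
  rw [Finset.sum_add_distrib, Finset.sum_const, smul_eq_mul, h1] at h4
  have h5 : ∑ c ∈ L, (L.filter (fun s => c ∈ F s)).card
      = ∑ s ∈ L, (L.filter (fun c => c ∈ F s)).card :=
    Finset.sum_card_bipartiteAbove_eq_sum_card_bipartiteBelow (fun c s => c ∈ F s)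
  have h6 : ∑ s ∈ L, (L.filter (fun c => c ∈ F s)).card ≤ ∑ _s ∈ L, κ := by
    refine Finset.sum_le_sum (fun s _ => ?_)
    refine (Finset.card_le_card ?_).trans (cF s)
    intro c hc
    exact (Finset.mem_filter.mp hc).2
  rw [Finset.sum_const, smul_eq_mul] at h6
  rw [h5] at h4
  have h7 : L.card * (2 * κ - 1) = L.card * (κ - 1) + L.card * κ := by
    rw [← Nat.mul_add]
    congr 1
    omega
  rw [h7, mul_comm 3]
  omega

open Classical in
lemma mem_C1 {L : Finset (Set (ℝ × ℝ))} {A : ℝ} {F G : Set (ℝ × ℝ) → Finset (Set (ℝ × ℝ))}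
    {r s t : Set (ℝ × ℝ)} {T : Finset (Set (ℝ × ℝ))} (hTm : T ∈ maxTriples L A)
    (hs : s ∈ F r) (ht : t ∈ G r) (hT : ∀ l, l ∈ T ↔ l = r ∨ l = s ∨ l = t) :
    T ∈ C1 L A F G := by
  unfold C1
  rw [Finset.mem_filter]
  refine ⟨hTm, r, (hT r).mpr (Or.inl rfl), ?_⟩
  intro l hl
  rw [Finset.mem_insert, Finset.mem_union]
  rcases (hT l).mp hl with rfl | rfl | rfl
  · exact Or.inl rfl
  · exact Or.inr (Or.inl hs)
  · exact Or.inr (Or.inr ht)

open Classical in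
lemma mem_C2 {L : Finset (Set (ℝ × ℝ))} {A : ℝ} {F : Set (ℝ × ℝ) → Finset (Set (ℝ × ℝ))}
    {x y z : Set (ℝ × ℝ)} {T : Finset (Set (ℝ × ℝ))} (hTm : T ∈ maxTriples L A)
    (h1 : x ∈ F y) (h2 : y ∈ F z) (h3 : z ∈ F x)
    (hT : ∀ l, l ∈ T ↔ l = x ∨ l = y ∨ l = z) : T ∈ C2 L A F := by
  unfold C2
  rw [Finset.mem_filter]
  refine ⟨hTm, ?_⟩
  have hL := (sub_L hTm).1
  have hx : x ∈ L := hL ((hT x).mpr (Or.inl rfl))
  have hy : y ∈ L := hL ((hT y).mpr (Or.inr (Or.inl rfl)))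
  have hz : z ∈ L := hL ((hT z).mpr (Or.inr (Or.inr rfl)))
  intro r hr l hl
  rw [Finset.mem_insert, Finset.mem_union, Finset.mem_filter]
  rcases (hT r).mp hr with rfl | rfl | rfl
  · rcases (hT l).mp hl with rfl | rfl | rfl
    · exact Or.inl rfl
    · exact Or.inr (Or.inr ⟨hy, h1⟩)
    · exact Or.inr (Or.inl h3)
  · rcases (hT l).mp hl with rfl | rfl | rfl
    · exact Or.inr (Or.inl h1)
    · exact Or.inl rfl
    · exact Or.inr (Or.inr ⟨hz, h2⟩)
  · rcases (hT l).mp hl with rfl | rfl | rfl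
    · exact Or.inr (Or.inr ⟨hx, h3⟩)
    · exact Or.inr (Or.inl h2)
    · exact Or.inl rfl

open Classical in
lemma main_sub {L : Finset (Set (ℝ × ℝ))} {A : ℝ} {α β γ : Set (ℝ × ℝ) → ℝ}
    (hrep : Rep L α β γ) (hL : ∀ l ∈ L, IsLine l) (hA : IsMaxArea L A)
    {P V : Finset (ℝ × ℝ)} (hc : CoveredBy L P V) {x y z : Set (ℝ × ℝ)} (hx : x ∈ L)
    (hy : y ∈ L) (hz : z ∈ L) (ht : TriangleArea x y z A)
    (s : DD α β x y * DD α β x z * DD α β y z < 0) {T : Finset (Set (ℝ × ℝ))}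
    (hTm : T ∈ maxTriples L A) (hT : ∀ l, l ∈ T ↔ l = x ∨ l = y ∨ l = z) :
    T ∈ C1 L A (Nmin L α β P V) (Nmax L α β P V) ∪
      (C2 L A (Nmin L α β P V) ∪ C2 L A (Nmax L α β P V)) := by
  rw [Finset.mem_union, Finset.mem_union]
  have s2 : DD α β y z * DD α β y x * DD α β z x < 0 := by
    have : DD α β y z * DD α β y x * DD α β z x
      = DD α β x y * DD α β x z * DD α β y z := by
      unfold DD D
      ring
    rwa [this]
  have s3 : DD α β z x * DD α β z y * DD α β x y < 0 := by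
    have : DD α β z x * DD α β z y * DD α β x y
      = DD α β x y * DD α β x z * DD α β y z := by
      unfold DD D
      ring
    rwa [this]
  have k1 := near hrep hL hA hc hx hy hz ht s
  have k2 := near hrep hL hA hc hy hz hx ht.rot s2
  have k3 := near hrep hL hA hc hz hx hy ht.rot.rot s3
  rcases k1 with k1 | k1
  · rcases k3 with k3 | k3
    · rcases k2 with k2 | k2
      · right
        left
        exact mem_C2 hTm k1 k2 k3 hT
      · left
        exact mem_C1 hTm k3 k2 (fun l => by rw [hT l]; tauto)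
    · left
      exact mem_C1 hTm k1 k3 (fun l => by rw [hT l]; tauto)
  · rcases k2 with k2 | k2
    · left
      exact mem_C1 hTm k2 k1 (fun l => by rw [hT l]; tauto)
    · rcases k3 with k3 | k3
      · left
        exact mem_C1 hTm k3 k2 (fun l => by rw [hT l]; tauto)
      · right
        right
        exact mem_C2 hTm (x := x) (y := z) (z := y) k1 k3 k2
          (fun l => by rw [hT l]; tauto)

open Classical in
theorem pencils_bound {L : Finset (Set (ℝ × ℝ))} {A : ℝ} (hL : ∀ l ∈ L, IsLine l)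
    (hA : IsMaxArea L A) {P V : Finset (ℝ × ℝ)} (hc : CoveredBy L P V) :
    3 * (maxTriples L A).card ≤ 5 * (2 * (P.card + V.card) - 1) * L.card := by
  have hL' := hL
  unfold IsLine at hL'
  choose! α β γ hne heq using hL'
  have hrep : Rep L α β γ := fun l hl => ⟨hne l hl, heq l hl⟩
  have hsub : maxTriples L A ⊆ C1 L A (Nmin L α β P V) (Nmax L α β P V) ∪
      (C2 L A (Nmin L α β P V) ∪ C2 L A (Nmax L α β P V)) := by
    intro T hTm
    have hTm' := hTm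
    unfold maxTriples at hTm'
    rw [Finset.mem_filter, Finset.mem_powersetCard] at hTm'
    obtain ⟨⟨hsub, -⟩, l₁, l₂, l₃, hteq, hT⟩ := hTm'
    have h1 : l₁ ∈ L := hsub (by rw [hteq]; simp)
    have h2 : l₂ ∈ L := hsub (by rw [hteq]; simp)
    have h3 : l₃ ∈ L := hsub (by rw [hteq]; simp)
    have hmem : ∀ l, l ∈ T ↔ l = l₁ ∨ l = l₂ ∨ l = l₃ := by
      intro l
      rw [hteq]
      simp
    have ht' : TriangleArea (ln (α l₁) (β l₁) (γ l₁)) (ln (α l₂) (β l₂) (γ l₂))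
        (ln (α l₃) (β l₃) (γ l₃)) A := by
      have : TriangleArea (line (α l₁) (β l₁) (γ l₁)) (line (α l₂) (β l₂) (γ l₂))
          (line (α l₃) (β l₃) (γ l₃)) A := by
        have e1 : l₁ = line (α l₁) (β l₁) (γ l₁) := heq l₁ h1
        have e2 : l₂ = line (α l₂) (β l₂) (γ l₂) := heq l₂ h2
        have e3 : l₃ = line (α l₃) (β l₃) (γ l₃) := heq l₃ h3
        rwa [← e1, ← e2, ← e3]
      exact this
    obtain ⟨d12, d13, d23, -, -⟩ := area_of (hne l₂ h2) (hne l₃ h3) ht'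
    have hs : DD α β l₁ l₂ * DD α β l₁ l₃ * DD α β l₂ l₃ ≠ 0 :=
      mul_ne_zero (mul_ne_zero d12 d13) d23
    rcases lt_or_gt_of_ne hs with u | u
    · exact main_sub hrep hL hA hc h1 h2 h3 hT u hTm hmem
    · refine main_sub hrep hL hA hc h2 h1 h3 hT.swap ?_ hTm (fun l => by rw [hmem l]; tauto)
      have : DD α β l₂ l₁ * DD α β l₂ l₃ * DD α β l₁ l₃
        = - (DD α β l₁ l₂ * DD α β l₁ l₃ * DD α β l₂ l₃) := by
        unfold DD D
        ring
      rw [this]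
      linarith
  have hκ : 1 ≤ P.card + V.card := by
    obtain ⟨l, hl, -⟩ := hA.1
    rcases hc l hl with ⟨p, hp, -⟩ | ⟨v, hv, -⟩
    · have := Finset.card_pos.mpr ⟨p, hp⟩
      omega
    · have := Finset.card_pos.mpr ⟨v, hv⟩
      omega
  have c0 := Finset.card_le_card hsub
  have c1 := card_C1 hL hA (Nmin_sub L α β P V) (Nmax_sub L α β P V)
    (card_Nmin hrep P V) (card_Nmax hrep P V)
  have c2 := card_C2 hL hA hκ (Nmin_sub L α β P V) (card_Nmin hrep P V)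
  have c3 := card_C2 hL hA hκ (Nmax_sub L α β P V) (card_Nmax hrep P V)
  have c4 := Finset.card_union_le (C1 L A (Nmin L α β P V) (Nmax L α β P V))
    (C2 L A (Nmin L α β P V) ∪ C2 L A (Nmax L α β P V))
  have c5 := Finset.card_union_le (C2 L A (Nmin L α β P V)) (C2 L A (Nmax L α β P V))
  have e : 5 * (2 * (P.card + V.card) - 1) * L.card
    = 5 * (L.card * (2 * (P.card + V.card) - 1)) := by ring
  rw [e]
  omega

end Pool.Agent.MP27bb56p
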